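import Pool.Agent.Y63.KR.Basic

/-!
# Chains of `p`-subgroups of a normal subgroup `N` of `E`

The proofs follow `Pool.Agent.Y63.KR.Basic`.
-/

set_option autoImplicit false

open scoped Classical BigOperators

set_option linter.unusedSectionVars false

noncomputable section

namespace Pool.Agent.V1140.DI

open Pool.Agent.Y63.KR

section

variable {E : Type} [Group E]

/-- `σ` is (the set of members of) a chain of nontrivial `p`-subgroups of the subgroup `N` of `E`. The
empty chain is allowed. -/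
structure IsNChain (p : ℕ) (N : Subgroup E) (σ : Set (Subgroup E)) : Prop where
  chain : IsPChain p σ
  le : ∀ P ∈ σ, P ≤ N

theorem nconj_equivalence (p : ℕ) (N : Subgroup E) :
    Equivalence (fun σ τ : {σ : Set (Subgroup E) // IsNChain p N σ} =>
      ∃ g ∈ N, τ.1 = conjSub g '' σ.1) :=
  { refl := fun σ => ⟨1, N.one_mem, by
      have : (conjSub (1 : E)) = id := funext conjSub_one
      rw [this, Set.image_id]⟩
    symm := by
      rintro σ τ ⟨g, hgN, hg⟩
      refine ⟨g⁻¹, N.inv_mem hgN, ?_⟩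
      rw [hg, ← Set.image_comp]
      have : conjSub g⁻¹ ∘ conjSub g = id := funext fun P => by
        rw [Function.comp_apply, ← conjSub_mul, inv_mul_cancel, conjSub_one, id]
      rw [this, Set.image_id]
    trans := by
      rintro σ τ υ ⟨g, hgN, hg⟩ ⟨h, hhN, hh⟩
      refine ⟨h * g, N.mul_mem hhN hgN, ?_⟩
      rw [hh, hg, ← Set.image_comp]
      congr 1
      exact (funext fun P => conjSub_mul h g P).symm }

/-- Conjugacy of chains under `N`. -/
def nchainSetoid (p : ℕ) (N : Subgroup E) : Setoid {σ : Set (Subgroup E) // IsNChain p N σ} where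
  r σ τ := ∃ g ∈ N, τ.1 = conjSub g '' σ.1
  iseqv := nconj_equivalence p N

/-- The alternating sum `∑_σ (-1)^|σ| f(E_σ)` over representatives `σ` of the `N`-conjugacy classes
of chains of nontrivial `p`-subgroups of `N`, the empty chain included; `|σ|` is the number of
members of `σ`, and `E_σ` is the stabiliser of `σ` in `E`. -/
def nSum (p : ℕ) (N : Subgroup E) (f : Subgroup E → ℤ) : ℤ :=
  ∑ᶠ c : Quotient (nchainSetoid p N), (-1) ^ c.out.1.ncard * f (chainStabilizer c.out.1)

end

variable {p : ℕ} {E : Type} [Group E] {N : Subgroup E}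

lemma IsNChain.conj [N.Normal] {σ : Set (Subgroup E)} (h : IsNChain p N σ) (g : E) :
    IsNChain p N (conjSub g '' σ) := by
  refine ⟨h.chain.conj g, ?_⟩
  rintro _ ⟨P, hP, rfl⟩ x hx
  rw [mem_conjSub] at hx
  have h1 := h.le P hP hx
  have h2 := ‹N.Normal›.conj_mem _ h1 g
  have e : g * (g⁻¹ * x * g) * g⁻¹ = x := by group
  rwa [e] at h2

theorem card_mul_nSum [Finite E] [N.Normal] (f : Subgroup E → ℤ)
    (hf : ∀ g ∈ N, ∀ (σ : Set (Subgroup E)),
      f (conjSub g (chainStabilizer σ)) = f (chainStabilizer σ))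
    [Fintype {σ : Set (Subgroup E) // IsNChain p N σ}] :
    (Nat.card N : ℤ) * nSum p N f =
      ∑ σ : {σ : Set (Subgroup E) // IsNChain p N σ},
        (-1) ^ σ.1.ncard * ((Nat.card (chainStabilizer σ.1 ⊓ N : Subgroup E) : ℤ) *
          f (chainStabilizer σ.1)) := by
  letI : MulAction N {σ : Set (Subgroup E) // IsNChain p N σ} :=
    { smul := fun g σ => ⟨conjSub (g : E) '' σ.1, σ.2.conj (g : E)⟩
      one_smul := fun σ => by
        apply Subtype.ext
        change conjSub (1 : E) '' σ.1 = σ.1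
        have : (conjSub (1 : E)) = id := funext conjSub_one
        rw [this, Set.image_id]
      mul_smul := fun g h σ => by
        apply Subtype.ext
        change conjSub ((g : E) * (h : E)) '' σ.1 = conjSub (g : E) '' (conjSub (h : E) '' σ.1)
        rw [← Set.image_comp]
        congr 1
        exact funext fun P => conjSub_mul (g : E) (h : E) P }
  have hsm : ∀ (g : N) (σ : {σ : Set (Subgroup E) // IsNChain p N σ}),
      (g • σ).1 = conjSub (g : E) '' σ.1 := fun _ _ => rfl
  have h := orbit_sum (G := N) (nchainSetoid p N) (by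
    intro σ τ
    change (∃ g ∈ N, τ.1 = conjSub g '' σ.1) ↔ _
    constructor
    · rintro ⟨g, hgN, hg⟩
      exact ⟨⟨g, hgN⟩, Subtype.ext (by rw [hsm, hg])⟩
    · rintro ⟨g, hg⟩
      exact ⟨g, g.2, by rw [← hg, hsm]⟩)
    (fun σ => (-1) ^ σ.1.ncard * f (chainStabilizer σ.1)) (by
      rintro σ τ ⟨g, hgN, hg⟩
      rw [hg, ncard_conj, chainStabilizer_conj, hf g hgN σ.1])
  unfold nSum
  rw [h]
  refine Finset.sum_congr rfl fun σ _ => ?_
  have hst : Nat.card (MulAction.stabilizer N σ) =
      Nat.card (chainStabilizer σ.1 ⊓ N : Subgroup E) := by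
    have hiff : ∀ g : N, g ∈ MulAction.stabilizer N σ ↔ (g : E) ∈ chainStabilizer σ.1 := by
      intro g
      rw [MulAction.mem_stabilizer_iff, Subtype.ext_iff, hsm, mem_chainStabilizer]
      constructor
      · intro h3 P hP
        have hgP : conjSub (g : E) P ∈ σ.1 := by
          rw [← h3]
          exact ⟨P, hP, rfl⟩
        have hcard : Nat.card (conjSub (g : E) P) = Nat.card P :=
          Nat.card_congr
            (Subgroup.equivMapOfInjective _ _ (MulAut.conj (g : E)).injective).toEquiv.symm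
        rcases σ.2.chain.chain.total hgP hP with h4 | h4
        · exact Subgroup.eq_of_le_of_card_ge h4 hcard.ge
        · exact (Subgroup.eq_of_le_of_card_ge h4 hcard.le).symm
      · intro h3
        ext P
        constructor
        · rintro ⟨Q, hQ, rfl⟩
          rw [h3 Q hQ]
          exact hQ
        · intro hP
          exact ⟨P, hP, h3 P hP⟩
    refine Nat.card_congr
      { toFun := fun g => ⟨(g.1 : E), (hiff g.1).1 g.2, g.1.2⟩
        invFun := fun g => ⟨⟨g.1, g.2.2⟩, (hiff _).2 g.2.1⟩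
        left_inv := fun g => rfl
        right_inv := fun g => rfl }
  rw [hst]
  ring

/-- the alternating sum of the chains normalised by `K` -/
def nW (p : ℕ) {E : Type} [Group E] (N : Subgroup E) (K : Set E) : ℤ :=
  ∑ᶠ σ : {σ : Set (Subgroup E) // IsNChain p N σ},
      (-1 : ℤ) ^ σ.1.ncard * (if ∀ P ∈ σ.1, ∀ x ∈ K, conjSub x P = P then 1 else 0)

lemma ntoggle_mem [Fact p.Prime] [Finite E] {U : Subgroup E} {K : Set E} (hU : IsPGroup p U)
    (hU1 : U ≠ ⊥) (hUN : U ≤ N) (hUK : U ≤ Subgroup.closure K) (hKU : ∀ x ∈ K, conjSub x U = U)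
    {σ : Set (Subgroup E)} (hσ : IsNChain p N σ) (hK : ∀ P ∈ σ, ∀ x ∈ K, conjSub x P = P) :
    IsNChain p N (toggle U σ) ∧ ∀ P ∈ toggle U σ, ∀ x ∈ K, conjSub x P = P := by
  obtain ⟨h1, h2⟩ := toggle_mem hU hU1 hUK hKU hσ.chain hK
  refine ⟨⟨h1, ?_⟩, h2⟩
  have hT : toggled U σ ≤ N := by
    refine sup_le ?_ hUN
    rcases lower_cases hσ.chain.chain U with h | h
    · rw [h]; exact bot_le
    · exact hσ.le _ h.1
  intro P hP
  unfold toggle at hP
  split_ifs at hP
  · exact hσ.le P hP.1
  · rcases hP with hP | hP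
    · rw [hP]; exact hT
    · exact hσ.le P hP

/-- **Cancellation.** -/
theorem nW_eq_zero [Fact p.Prime] [Finite E] {U : Subgroup E} {K : Set E} (hU : IsPGroup p U)
    (hU1 : U ≠ ⊥) (hUN : U ≤ N) (hUK : U ≤ Subgroup.closure K)
    (hKU : ∀ x ∈ K, conjSub x U = U) : nW p N K = 0 := by
  have : Fintype {σ : Set (Subgroup E) // IsNChain p N σ} := Fintype.ofFinite _
  unfold nW
  rw [finsum_eq_sum_of_fintype]
  have : ∀ σ : {σ : Set (Subgroup E) // IsNChain p N σ},
      (-1 : ℤ) ^ σ.1.ncard * (if ∀ P ∈ σ.1, ∀ x ∈ K, conjSub x P = P then 1 else 0) =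
      if ∀ P ∈ σ.1, ∀ x ∈ K, conjSub x P = P then (-1 : ℤ) ^ σ.1.ncard else 0 := by
    intro σ
    split_ifs <;> simp
  simp only [this]
  rw [← Finset.sum_filter]
  refine Finset.sum_involution
    (fun σ hσ => ⟨toggle U σ.1,
      (ntoggle_mem hU hU1 hUN hUK hKU σ.2 (Finset.mem_filter.mp hσ).2).1⟩)
    ?_ ?_ ?_ ?_
  · intro σ hσ
    change (-1 : ℤ) ^ σ.1.ncard + (-1) ^ (toggle U σ.1).ncard = 0
    rw [ncard_toggle]
    ring
  · intro σ hσ _ h
    have h1 : toggle U σ.1 = σ.1 := congrArg Subtype.val h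
    have h2 := ncard_toggle U σ.1
    rw [h1] at h2
    have h3 : ((-1 : ℤ)) ^ σ.1.ncard ≠ 0 := pow_ne_zero _ (by norm_num)
    omega
  · intro σ hσ
    rw [Finset.mem_filter]
    exact ⟨Finset.mem_univ _,
      (ntoggle_mem hU hU1 hUN hUK hKU σ.2 (Finset.mem_filter.mp hσ).2).2⟩
  · intro σ hσ
    apply Subtype.ext
    exact toggle_toggle U σ.1

/-- pairs with the first member of order divisible by `p` do not contribute -/
theorem nW_zero [Fact p.Prime] [Finite E] {s : ℕ} {g n : E} (hg : g ∈ N)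
    (hs : Nat.Coprime s (orderOf g)) (h : n * g ^ s * n⁻¹ = g) (hp : p ∣ orderOf g) :
    nW p N ({g, n} : Set E) = 0 := by
  set m := orderOf g / p ^ (orderOf g).factorization p with hm
  have hx0 : orderOf g ≠ 0 := (orderOf_pos g).ne'
  have hmv : p ^ (orderOf g).factorization p * m = orderOf g := Nat.ordProj_mul_ordCompl_eq_self _ _
  have hm0 : m ≠ 0 := by
    intro h1
    rw [h1, mul_zero] at hmv
    exact hx0 hmv.symm
  have hord : orderOf (g ^ m) = p ^ (orderOf g).factorization p := by
    rw [orderOf_pow_of_dvd hm0 ⟨_, by rw [mul_comm]; exact hmv.symm⟩]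
    exact Nat.div_eq_of_eq_mul_left (Nat.pos_of_ne_zero hm0) hmv.symm
  have hv : (orderOf g).factorization p ≠ 0 := by
    have := (Fact.out : p.Prime).factorization_pos_of_dvd hx0 hp
    omega
  have hconj : ∀ z : E, z * g * z⁻¹ ∈ Subgroup.zpowers g →
      conjSub z (Subgroup.zpowers (g ^ m)) = Subgroup.zpowers (g ^ m) := by
    intro z hz
    obtain ⟨k, hk⟩ := Subgroup.mem_zpowers_iff.1 hz
    have hle : conjSub z (Subgroup.zpowers (g ^ m)) ≤ Subgroup.zpowers (g ^ m) := by
      unfold conjSub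
      rw [MonoidHom.map_zpowers, Subgroup.zpowers_le]
      change z * g ^ m * z⁻¹ ∈ _
      rw [← conj_pow, ← hk, Subgroup.mem_zpowers_iff]
      refine ⟨k, ?_⟩
      rw [← zpow_natCast, ← zpow_mul, ← zpow_natCast, ← zpow_mul, mul_comm]
    have hcard : Nat.card (conjSub z (Subgroup.zpowers (g ^ m))) =
        Nat.card (Subgroup.zpowers (g ^ m)) :=
      Nat.card_congr (Subgroup.equivMapOfInjective _ _ (MulAut.conj z).injective).toEquiv.symm
    exact Subgroup.eq_of_le_of_card_ge hle hcard.ge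
  refine nW_eq_zero (U := Subgroup.zpowers (g ^ m)) ?_ ?_ ?_ ?_ ?_
  · apply IsPGroup.of_card (n := (orderOf g).factorization p)
    rw [Nat.card_zpowers, hord]
  · intro h1
    rw [Subgroup.zpowers_eq_bot] at h1
    rw [h1, orderOf_one] at hord
    have : 1 < p ^ (orderOf g).factorization p := Nat.one_lt_pow hv (Fact.out : p.Prime).one_lt
    omega
  · rw [Subgroup.zpowers_le]
    exact Subgroup.pow_mem _ hg _
  · rw [Subgroup.zpowers_le]
    exact Subgroup.pow_mem _ (Subgroup.subset_closure (by simp)) _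
  · rintro z (rfl | hz)
    · apply hconj
      rw [mul_inv_cancel_right]
      exact Subgroup.mem_zpowers z
    · rw [Set.mem_singleton_iff] at hz
      subst hz
      apply hconj
      obtain ⟨r, hr⟩ := exists_pow_eq_self_of_coprime hs
      have h1 : z * g * z⁻¹ = g ^ r := by
        conv_lhs => rw [← hr]
        rw [← conj_pow, h]
      rw [h1]
      exact Subgroup.pow_mem _ (Subgroup.mem_zpowers g) r

end Pool.Agent.V1140.DI
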