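import Pool.Agent.V1140.DC.Fix

/-!
# Counting the characters fixed by an automorphism and a power map
-/

set_option autoImplicit false

open scoped BigOperators Classical
open Representation Pool.Agent.Helper884.IC Pool.Agent.Y63.AWC Pool.Agent.V1140.DC

noncomputable section

namespace Pool.Agent.V1140.DI

section

variable {H K V : Type} [Group H] [Group K] [AddCommGroup V] [Module ℂ V]
  (rho : Representation ℂ K V) (α : H ≃* K)

/-- the subrepresentations of the composition with an isomorphism -/
def compSub : Subrepresentation rho ≃o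
    Subrepresentation (rho.comp α.toMonoidHom : Representation ℂ H V) where
  toFun U :=
    { toSubmodule := U.toSubmodule
      apply_mem_toSubmodule := fun g v hv => U.apply_mem_toSubmodule (α g) hv }
  invFun U :=
    { toSubmodule := U.toSubmodule
      apply_mem_toSubmodule := fun g v hv => by
        have h := U.apply_mem_toSubmodule (α.symm g) hv
        change rho (α (α.symm g)) v ∈ U.toSubmodule at h
        rwa [α.apply_symm_apply] at h }
  left_inv U := rfl
  right_inv U := rfl
  map_rel_iff' := Iff.rfl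

end

/-- irreducible characters composed with an isomorphism are irreducible -/
theorem irr_comp {H K : Type} [Group H] [Group K] (α : H ≃* K) {χ : K → ℂ} (hχ : IsIrrChar χ) :
    IsIrrChar (fun g => χ (α g)) := by
  obtain ⟨V, _, _, _, ρ, hρ, rfl⟩ := hχ
  exact ⟨V, inferInstance, inferInstance, inferInstance, ρ.comp α.toMonoidHom,
    (compSub ρ α).isSimpleOrder_iff.1 hρ, rfl⟩

/-- **Brauer's permutation lemma** for an automorphism and a power map -/
theorem count_twist {H : Type} [Group H] [Fintype H] (α : H ≃* H) {s : ℕ}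
    (hs : Nat.Coprime s (Nat.card H)) :
    Nat.card H * Nat.card {χ : H → ℂ // IsIrreducibleCharacter χ ∧ ∀ g, χ (α (g ^ s)) = χ g} =
      Nat.card {q : H × H // q.2 * α (q.1 ^ s) * q.2⁻¹ = q.1} := by
  have hc0 : (Nat.card H : ℂ) ≠ 0 := by exact_mod_cast Nat.card_pos.ne'
  have h1 : ∑ χ ∈ Irr H, B (fun g => χ (α (g ^ s))) χ =
      (Nat.card {χ : H → ℂ // IsIrreducibleCharacter χ ∧ ∀ g, χ (α (g ^ s)) = χ g} : ℂ) := by
    have h2 : ∀ χ ∈ Irr H, B (fun g => χ (α (g ^ s))) χ =
        if (fun g => χ (α (g ^ s))) = χ then (1 : ℂ) else 0 := by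
      intro χ hχ
      exact B_irr (irr_pow hs (irr_comp α (mem_Irr.1 hχ))) (mem_Irr.1 hχ)
    rw [Finset.sum_congr rfl h2, Finset.sum_ite, Finset.sum_const_zero, add_zero, Finset.sum_const,
      nsmul_eq_mul, mul_one]
    congr 1
    symm
    refine Nat.subtype_card _ fun χ => ?_
    rw [Finset.mem_filter, mem_Irr]
    exact and_congr_right fun _ => funext_iff
  have h3 : (Nat.card H : ℂ) * ∑ χ ∈ Irr H, B (fun g => χ (α (g ^ s))) χ =
      (Nat.card {q : H × H // q.2 * α (q.1 ^ s) * q.2⁻¹ = q.1} : ℂ) := by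
    unfold B
    rw [← Finset.mul_sum, Finset.sum_comm, ← mul_assoc, mul_inv_cancel₀ hc0, one_mul]
    have h5 : ∀ g : H, ∑ χ ∈ Irr H, χ (α (g ^ s)) * χ g⁻¹ =
        ((Nat.card {n : H // n * α (g ^ s) * n⁻¹ = g} : ℕ) : ℂ) := fun g => col_orth (α (g ^ s)) g
    rw [Finset.sum_congr rfl fun g _ => h5 g, ← Nat.cast_sum]
    congr 1
    rw [← Nat.card_sigma]
    refine Nat.card_congr
      { toFun := fun q => ⟨(q.1, q.2.1), q.2.2⟩
        invFun := fun q => ⟨q.1.1, q.1.2, q.2⟩
        left_inv := fun q => rfl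
        right_inv := fun q => rfl }
  rw [h1] at h3
  exact_mod_cast h3

end Pool.Agent.V1140.DI
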