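import Pool.Agent.V1140.DI.Chain
import Pool.Agent.V1140.DI.Twist

/-!
# Invariant characters: the alternating sum and its cancellation
-/

set_option autoImplicit false

open scoped BigOperators Classical
open Pool.Agent.Y63.KR Pool.Agent.Y63.AWC Pool.Agent.V1140.DC

set_option linter.unusedSectionVars false

noncomputable section

namespace Pool.Agent.V1140.DI

variable {p : ℕ} {E : Type} [Group E] {N : Subgroup E}

/-- `ψ (e g ^ s e⁻¹) = ψ g` for all `g`; `ψ` is a function on `M ⊓ N`. -/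
def FixedBy (s : ℕ) (N M : Subgroup E) (ψ : (M ⊓ N : Subgroup E) → ℂ) (e : E) : Prop :=
  ∀ g g' : (M ⊓ N : Subgroup E), (g' : E) = e * (g : E) ^ s * e⁻¹ → ψ g' = ψ g

/-- some element of the coset `N y` which lies in `M` fixes `ψ` (together with the `s`-th power
map). For `s = 1` and `M = E_σ`: the coset of `y` is in the subgroup `N_{E/N}(σ, ψ)` of `E/N`. -/
def InvBy (s : ℕ) (N M : Subgroup E) (ψ : (M ⊓ N : Subgroup E) → ℂ) (y : E) : Prop :=
  ∃ e ∈ M, e * y⁻¹ ∈ N ∧ FixedBy s N M ψ e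

/-- the number of the `ψ` fixed by the coset of `y` and the `s`-th power map -/
def numInv (s : ℕ) (N : Subgroup E) (y : E) (M : Subgroup E) : ℕ :=
  Nat.card {ψ : (M ⊓ N : Subgroup E) → ℂ // IsIrreducibleCharacter ψ ∧ InvBy s N M ψ y}

/-- conjugation by an element of `M` on `M ⊓ N` -/
def cj [N.Normal] {M : Subgroup E} {e : E} (he : e ∈ M) :
    (M ⊓ N : Subgroup E) ≃* (M ⊓ N : Subgroup E) where
  toFun g := ⟨e * g * e⁻¹, M.mul_mem (M.mul_mem he g.2.1) (M.inv_mem he),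
    ‹N.Normal›.conj_mem _ g.2.2 e⟩
  invFun g := ⟨e⁻¹ * g * e, M.mul_mem (M.mul_mem (M.inv_mem he) g.2.1) he, by
    have := ‹N.Normal›.conj_mem _ g.2.2 e⁻¹
    rwa [inv_inv] at this⟩
  left_inv g := Subtype.ext (by simp [mul_assoc])
  right_inv g := Subtype.ext (by simp [mul_assoc])
  map_mul' g h := Subtype.ext (by simp [mul_assoc])

/-- the pairs -/
def Pr (s : ℕ) (N : Subgroup E) (y : E) (q : E × E) : Prop :=
  q.1 ∈ N ∧ q.2 * y⁻¹ ∈ N ∧ q.2 * q.1 ^ s * q.2⁻¹ = q.1

lemma count [Finite E] [N.Normal] {s : ℕ} (hs : Nat.Coprime s (Nat.card N)) (y : E)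
    (M : Subgroup E) : Nat.card (M ⊓ N : Subgroup E) * numInv s N y M =
      Nat.card {q : E × E // Pr s N y q ∧ q.1 ∈ M ∧ q.2 ∈ M} := by
  have : Fintype (M ⊓ N : Subgroup E) := Fintype.ofFinite _
  by_cases h0 : ∃ e ∈ M, e * y⁻¹ ∈ N
  · obtain ⟨e0, he0, he1⟩ := h0
    have h := count_twist (cj (N := N) he0) (s := s) (Nat.Coprime.coprime_dvd_right
      (Subgroup.card_dvd_of_le (inf_le_right : (M ⊓ N : Subgroup E) ≤ N)) hs)
    have e1 : numInv s N y M = Nat.card {χ : (M ⊓ N : Subgroup E) → ℂ //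
        IsIrreducibleCharacter χ ∧ ∀ g, χ (cj (N := N) he0 (g ^ s)) = χ g} := by
      unfold numInv
      refine Nat.card_congr (Equiv.subtypeEquivRight fun χ => and_congr_right fun hχ => ?_)
      constructor
      · rintro ⟨e, he, he2, h2⟩ g
        have hh : e * e0⁻¹ ∈ (M ⊓ N : Subgroup E) := by
          refine ⟨M.mul_mem he (M.inv_mem he0), ?_⟩
          have h3 := N.mul_mem he2 (N.inv_mem he1)
          have h4 : e * y⁻¹ * (e0 * y⁻¹)⁻¹ = e * e0⁻¹ := by group
          rwa [h4] at h3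
        have hcl : Pool.Agent.Helper884.IC.IsClass χ :=
          Pool.Agent.Helper884.IC.IsIrrChar.isClass hχ
        rw [← hcl (cj (N := N) he0 (g ^ s)) ⟨e * e0⁻¹, hh⟩]
        apply h2
        change (e * e0⁻¹) * (e0 * (g : E) ^ s * e0⁻¹) * (e * e0⁻¹)⁻¹ = e * (g : E) ^ s * e⁻¹
        group
      · intro h2
        refine ⟨e0, he0, he1, fun g g' hg => ?_⟩
        have h3 : g' = cj (N := N) he0 (g ^ s) := Subtype.ext hg
        rw [h3]
        exact h2 g
    rw [e1, h]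
    refine Nat.card_congr
      { toFun := fun q => ⟨((q.1.1 : E), (q.1.2 : E) * e0), ⟨q.1.1.2.2, ?_, ?_⟩, q.1.1.2.1,
          M.mul_mem q.1.2.2.1 he0⟩
        invFun := fun q => ⟨(⟨q.1.1, q.2.2.1, q.2.1.1⟩, ⟨q.1.2 * e0⁻¹,
          M.mul_mem q.2.2.2 (M.inv_mem he0), ?_⟩), ?_⟩
        left_inv := ?_
        right_inv := ?_ }
    · change (q.1.2 : E) * e0 * y⁻¹ ∈ N
      rw [mul_assoc]
      exact N.mul_mem q.1.2.2.2 he1
    · have h2 := congrArg Subtype.val q.2
      change (q.1.2 : E) * (e0 * (q.1.1 : E) ^ s * e0⁻¹) * (q.1.2 : E)⁻¹ = q.1.1 at h2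
      change (q.1.2 : E) * e0 * (q.1.1 : E) ^ s * ((q.1.2 : E) * e0)⁻¹ = q.1.1
      have h3 : (q.1.2 : E) * e0 * (q.1.1 : E) ^ s * ((q.1.2 : E) * e0)⁻¹ =
          (q.1.2 : E) * (e0 * (q.1.1 : E) ^ s * e0⁻¹) * (q.1.2 : E)⁻¹ := by group
      rw [h3]
      exact h2
    · have h2 := N.mul_mem q.2.1.2.1 (N.inv_mem he1)
      have h4 : q.1.2 * y⁻¹ * (e0 * y⁻¹)⁻¹ = q.1.2 * e0⁻¹ := by group
      rwa [h4] at h2
    · apply Subtype.ext
      change (q.1.2 * e0⁻¹) * (e0 * q.1.1 ^ s * e0⁻¹) * (q.1.2 * e0⁻¹)⁻¹ = q.1.1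
      have h2 := q.2.1.2.2
      have h4 : (q.1.2 * e0⁻¹) * (e0 * q.1.1 ^ s * e0⁻¹) * (q.1.2 * e0⁻¹)⁻¹ =
          q.1.2 * q.1.1 ^ s * q.1.2⁻¹ := by group
      rw [h4]
      exact h2
    · rintro ⟨⟨g, n⟩, hq⟩
      apply Subtype.ext
      apply Prod.ext
      · rfl
      · apply Subtype.ext
        change (n : E) * e0 * e0⁻¹ = n
        rw [mul_inv_cancel_right]
    · rintro ⟨⟨g, n⟩, hq⟩
      apply Subtype.ext
      apply Prod.ext
      · rfl
      · change n * e0⁻¹ * e0 = n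
        rw [inv_mul_cancel_right]
  · have e1 : numInv s N y M = 0 := by
      unfold numInv
      rw [Nat.card_eq_zero]
      left
      constructor
      rintro ⟨χ, -, e, he, he2, -⟩
      exact h0 ⟨e, he, he2⟩
    have e2 : Nat.card {q : E × E // Pr s N y q ∧ q.1 ∈ M ∧ q.2 ∈ M} = 0 := by
      rw [Nat.card_eq_zero]
      left
      constructor
      rintro ⟨q, h1, -, h2⟩
      exact h0 ⟨q.2, h2, h1.2.1⟩
    rw [e1, e2, mul_zero]

lemma numInv_conj [Finite E] [N.Normal] {s : ℕ} (hs : Nat.Coprime s (Nat.card N)) (y : E) {x : E}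
    (hx : x ∈ N) (M : Subgroup E) : numInv s N y (conjSub x M) = numInv s N y M := by
  have hinf : (conjSub x M ⊓ N : Subgroup E) = conjSub x (M ⊓ N) := by
    ext z
    rw [Subgroup.mem_inf, mem_conjSub, mem_conjSub, Subgroup.mem_inf]
    refine and_congr_right fun _ => ?_
    constructor
    · intro h
      exact N.mul_mem (N.mul_mem (N.inv_mem hx) h) hx
    · intro h
      have h2 := N.mul_mem (N.mul_mem hx h) (N.inv_mem hx)
      have h3 : x * (x⁻¹ * z * x) * x⁻¹ = z := by group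
      rwa [h3] at h2
  have hcard : Nat.card (conjSub x M ⊓ N : Subgroup E) = Nat.card (M ⊓ N : Subgroup E) := by
    rw [hinf]
    exact Nat.card_congr (Subgroup.equivMapOfInjective _ _ (MulAut.conj x).injective).toEquiv.symm
  have h1 := count hs y M
  have h2 := count hs y (conjSub x M)
  rw [hcard] at h2
  have h3 : Nat.card {q : E × E // Pr s N y q ∧ q.1 ∈ conjSub x M ∧ q.2 ∈ conjSub x M} =
      Nat.card {q : E × E // Pr s N y q ∧ q.1 ∈ M ∧ q.2 ∈ M} := by
    symm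
    refine Nat.card_congr (Equiv.subtypeEquiv (Equiv.prodCongr (MulAut.conj x).toEquiv
      (MulAut.conj x).toEquiv) fun q => ?_)
    change _ ↔ (Pr s N y (x * q.1 * x⁻¹, x * q.2 * x⁻¹) ∧ x * q.1 * x⁻¹ ∈ conjSub x M ∧
      x * q.2 * x⁻¹ ∈ conjSub x M)
    rw [mem_conjSub, mem_conjSub]
    have e1 : x⁻¹ * (x * q.1 * x⁻¹) * x = q.1 := by group
    have e2 : x⁻¹ * (x * q.2 * x⁻¹) * x = q.2 := by group
    rw [e1, e2]
    refine and_congr_left fun _ => ?_
    unfold Pr
    simp only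
    have e3 : x * q.1 * x⁻¹ ∈ N ↔ q.1 ∈ N := by
      constructor
      · intro h
        have := ‹N.Normal›.conj_mem _ h x⁻¹
        rwa [inv_inv, e1] at this
      · intro h
        exact ‹N.Normal›.conj_mem _ h x
    have e4 : x * q.2 * x⁻¹ * y⁻¹ ∈ N ↔ q.2 * y⁻¹ ∈ N := by
      have hyx : y * x⁻¹ * y⁻¹ ∈ N := ‹N.Normal›.conj_mem _ (N.inv_mem hx) y
      have e5 : x * q.2 * x⁻¹ * y⁻¹ = x * (q.2 * y⁻¹) * (y * x⁻¹ * y⁻¹) := by group
      rw [e5]
      constructor
      · intro h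
        have h5 := N.mul_mem (N.mul_mem (N.inv_mem hx) h) (N.inv_mem hyx)
        have h6 : x⁻¹ * (x * (q.2 * y⁻¹) * (y * x⁻¹ * y⁻¹)) * (y * x⁻¹ * y⁻¹)⁻¹ =
            q.2 * y⁻¹ := by group
        rwa [h6] at h5
      · intro h
        exact N.mul_mem (N.mul_mem hx h) hyx
    have e6 : x * q.2 * x⁻¹ * (x * q.1 * x⁻¹) ^ s * (x * q.2 * x⁻¹)⁻¹ = x * q.1 * x⁻¹ ↔
        q.2 * q.1 ^ s * q.2⁻¹ = q.1 := by
      have e7 : x * q.2 * x⁻¹ * (x * q.1 * x⁻¹) ^ s * (x * q.2 * x⁻¹)⁻¹ =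
          x * (q.2 * q.1 ^ s * q.2⁻¹) * x⁻¹ := by
        rw [conj_pow]
        simp only [mul_inv_rev, inv_inv, mul_assoc, inv_mul_cancel_left]
      rw [e7]
      constructor
      · intro h
        exact mul_left_cancel (mul_right_cancel h)
      · intro h
        rw [h]
    rw [e3, e4, e6]
  rw [h3, ← h1] at h2
  exact Nat.eq_of_mul_eq_mul_left Nat.card_pos h2

theorem main [Fintype E] [N.Normal] {s : ℕ} (hs : Nat.Coprime s (Nat.card N)) (y : E) :
    (Nat.card N : ℤ) * nSum p N (fun M => (numInv s N y M : ℤ)) =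
      ∑ q : E × E, if Pr s N y q then nW p N ({q.1, q.2} : Set E) else 0 := by
  have : Fintype {σ : Set (Subgroup E) // IsNChain p N σ} := Fintype.ofFinite _
  rw [card_mul_nSum (fun M => (numInv s N y M : ℤ)) (fun x hx σ => by
    change (numInv s N y _ : ℤ) = (numInv s N y _ : ℤ)
    rw [numInv_conj hs y hx])]
  have h3 : ∀ σ : {σ : Set (Subgroup E) // IsNChain p N σ},
      (-1 : ℤ) ^ σ.1.ncard * ((Nat.card (chainStabilizer σ.1 ⊓ N : Subgroup E) : ℤ) *
        (numInv s N y (chainStabilizer σ.1) : ℤ)) =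
      ∑ q : E × E, if Pr s N y q then ((-1 : ℤ) ^ σ.1.ncard *
        (if ∀ P ∈ σ.1, ∀ x ∈ ({q.1, q.2} : Set E), conjSub x P = P then 1 else 0)) else 0 := by
    intro σ
    have h4 := count hs y (chainStabilizer σ.1)
    have h5 : ((Nat.card (chainStabilizer σ.1 ⊓ N : Subgroup E) : ℤ) *
        (numInv s N y (chainStabilizer σ.1) : ℤ)) =
        ∑ q : E × E, if Pr s N y q ∧ q.1 ∈ chainStabilizer σ.1 ∧ q.2 ∈ chainStabilizer σ.1
          then (1 : ℤ) else 0 := by
      rw [← Nat.cast_mul, h4, Finset.sum_boole, Nat.card_eq_fintype_card, Fintype.card_subtype]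
    rw [h5, Finset.mul_sum]
    refine Finset.sum_congr rfl fun q _ => ?_
    have h6 : (q.1 ∈ chainStabilizer σ.1 ∧ q.2 ∈ chainStabilizer σ.1) ↔
        ∀ P ∈ σ.1, ∀ x ∈ ({q.1, q.2} : Set E), conjSub x P = P := by
      rw [mem_chainStabilizer, mem_chainStabilizer]
      constructor
      · rintro ⟨h6, h7⟩ P hP x (hx | hx)
        · rw [hx]
          exact h6 P hP
        · rw [Set.mem_singleton_iff] at hx
          rw [hx]
          exact h7 P hP
      · intro h6
        exact ⟨fun P hP => h6 P hP q.1 (by simp), fun P hP => h6 P hP q.2 (by simp)⟩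
    by_cases h7 : Pr s N y q
    · by_cases h8 : q.1 ∈ chainStabilizer σ.1 ∧ q.2 ∈ chainStabilizer σ.1
      · rw [if_pos ⟨h7, h8⟩, if_pos h7, if_pos (h6.1 h8)]
      · rw [if_neg fun h => h8 h.2, if_pos h7, if_neg fun h => h8 (h6.2 h)]
    · rw [if_neg fun h => h7 h.1, if_neg h7, mul_zero]
  rw [Finset.sum_congr rfl fun σ _ => h3 σ, Finset.sum_comm]
  refine Finset.sum_congr rfl fun q _ => ?_
  by_cases h7 : Pr s N y q
  · rw [if_pos h7, Finset.sum_congr rfl fun σ _ => if_pos h7]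
    unfold nW
    rw [finsum_eq_sum_of_fintype]
    exact Finset.sum_congr rfl fun _ _ => by congr
  · rw [if_neg h7, Finset.sum_congr rfl fun σ _ => if_neg h7, Finset.sum_const_zero]

/-- **Independence of the `p`-part of the exponent.** -/
theorem master [Fact p.Prime] [Finite E] [N.Normal] {s t : ℕ} (hs : Nat.Coprime s (Nat.card N))
    (ht : Nat.Coprime t (Nat.card N))
    (hst : s ≡ t [MOD Nat.card N / p ^ (Nat.card N).factorization p]) (y : E) :
    nSum p N (fun M => (numInv s N y M : ℤ)) = nSum p N (fun M => (numInv t N y M : ℤ)) := by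
  have hp : p.Prime := Fact.out
  have : Fintype E := Fintype.ofFinite E
  have h1 := main (p := p) hs y
  have h2 := main (p := p) ht y
  have h3 : ∀ q : E × E, (if Pr s N y q then nW p N ({q.1, q.2} : Set E) else 0) =
      if Pr t N y q then nW p N ({q.1, q.2} : Set E) else 0 := by
    intro q
    have hord : q.1 ∈ N → orderOf q.1 ∣ Nat.card N := fun h => by
      have := orderOf_dvd_natCard (⟨q.1, h⟩ : N)
      rwa [Subgroup.orderOf_mk] at this
    by_cases hd : p ∣ orderOf q.1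
    · have h4 : ∀ r : ℕ, Nat.Coprime r (Nat.card N) →
          (if Pr r N y q then nW p N ({q.1, q.2} : Set E) else 0) = 0 := by
        intro r hr
        by_cases h5 : Pr r N y q
        · rw [if_pos h5]
          exact nW_zero h5.1 (Nat.Coprime.coprime_dvd_right (hord h5.1) hr) h5.2.2 hd
        · rw [if_neg h5]
      rw [h4 s hs, h4 t ht]
    · have h4 : Pr s N y q ↔ Pr t N y q := by
        unfold Pr
        refine and_congr_right fun hq => and_congr_right fun _ => ?_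
        have h5 : orderOf q.1 ∣ Nat.card N / p ^ (Nat.card N).factorization p := by
          have h6 := hord hq
          rw [← Nat.ordProj_mul_ordCompl_eq_self (Nat.card N) p] at h6
          exact Nat.Coprime.dvd_of_dvd_mul_left (Nat.Coprime.pow_right _
            ((Nat.Prime.coprime_iff_not_dvd hp).mpr hd).symm) h6
        have h6 : q.1 ^ s = q.1 ^ t := pow_eq_pow_iff_modEq.mpr (hst.of_dvd h5)
        rw [h6]
      by_cases h5 : Pr s N y q
      · rw [if_pos h5, if_pos (h4.1 h5)]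
      · rw [if_neg h5, if_neg fun h => h5 (h4.2 h)]
  rw [Finset.sum_congr rfl fun q _ => h3 q, ← h2] at h1
  have h4 : (Nat.card N : ℤ) ≠ 0 := by exact_mod_cast Nat.card_pos.ne'
  exact mul_left_cancel₀ h4 h1

end Pool.Agent.V1140.DI
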