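import Pool.Agent.V1140.DI.Count

/-!
# Invariant characters and levels of rationality
-/

set_option autoImplicit false

open scoped BigOperators Classical
open Pool.Agent.Y63.KR Pool.Agent.Y63.AWC Pool.Agent.V1140.DC

set_option linter.unusedSectionVars false

noncomputable section

namespace Pool.Agent.V1140.DI

variable {p : ℕ} {E : Type} [Group E] {N : Subgroup E}

lemma modEq_of {M p a b : ℕ} (hp : p.Prime) (hN : M ≠ 0)
    (h1 : a ≡ b [MOD p ^ M.factorization p]) (h2 : a ≡ b [MOD M / p ^ M.factorization p]) :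
    a ≡ b [MOD M] := by
  have hmv : p ^ M.factorization p * (M / p ^ M.factorization p) = M :=
    Nat.ordProj_mul_ordCompl_eq_self M p
  rw [← hmv, ← Nat.modEq_and_modEq_iff_modEq_mul]
  · exact ⟨h1, h2⟩
  · exact Nat.Coprime.pow_left _ ((Nat.Prime.coprime_iff_not_dvd hp).mpr
      (Nat.not_dvd_ordCompl hp hN))

/-- one exponent detects the `p^a`-rational characters of all groups of order dividing `M` -/
theorem exists_detect [Fact p.Prime] {M : ℕ} (hM : M ≠ 0) {a : ℕ} (ha : p = 2 → 2 ≤ a) :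
    ∃ t : ℕ, Nat.Coprime t M ∧ t ≡ 1 [MOD p ^ a] ∧ ¬ p ∣ t ∧
      t ≡ 1 [MOD M / p ^ M.factorization p] ∧
      ∀ (H : Type) [Group H] [Finite H] (χ : H → ℂ), Nat.card H ∣ M →
        (IsRationalChar p a χ ↔ ∀ g, χ (g ^ t) = χ g) := by
  have hp : p.Prime := Fact.out
  obtain ⟨t, ht1, ht2, ht3, ht4⟩ := exists_exponent (p := p) ha (M.factorization p)
    (M / p ^ M.factorization p) (Nat.not_dvd_ordCompl hp hM)
  have hmv : p ^ M.factorization p * (M / p ^ M.factorization p) = M :=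
    Nat.ordProj_mul_ordCompl_eq_self _ p
  have hcopm : Nat.Coprime t (M / p ^ M.factorization p) := by
    have h1 := ht3.gcd_eq
    rw [Nat.gcd_one_left] at h1
    exact h1
  have hcopp : Nat.Coprime t (p ^ M.factorization p) :=
    Nat.Coprime.pow_right _ ((Nat.Prime.coprime_iff_not_dvd hp).mpr ht1).symm
  refine ⟨t, ?_, ht2, ht1, ht3, fun H _ _ χ hdvd => ?_⟩
  · rw [← hmv]
    exact Nat.Coprime.mul_right hcopp hcopm
  · have hH0 : Nat.card H ≠ 0 := Nat.card_pos.ne'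
    have hd1 : Nat.card H / p ^ (Nat.card H).factorization p ∣
        M / p ^ M.factorization p := Nat.ordCompl_dvd_ordCompl_of_dvd hdvd p
    have hd2 : p ^ (Nat.card H).factorization p ∣ p ^ M.factorization p := by
      apply pow_dvd_pow
      exact (Nat.factorization_le_iff_dvd hH0 hM).mpr hdvd p
    constructor
    · intro h
      exact h t ht1 ht2 (ht3.of_dvd hd1)
    · intro h s hs1 hs2 hs3 g
      obtain ⟨j, hj⟩ := ht4 s hs1 hs2
      have h1 : g ^ s = g ^ t ^ j := by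
        have h2 : s ≡ t ^ j [MOD Nat.card H] := by
          apply modEq_of hp hH0 (hj.of_dvd hd2)
          have h3 := (ht3.of_dvd hd1).pow j
          rw [one_pow] at h3
          exact hs3.trans h3.symm
        exact pow_eq_pow_iff_modEq.mpr (h2.of_dvd (orderOf_dvd_natCard g))
      rw [h1]
      exact char_pow_pow h j g

/-- the exponent is a power of its `k`-th power -/
lemma exists_root [Fact p.Prime] {M t a k : ℕ} (hM : M ≠ 0) (ht : Nat.Coprime t M)
    (hta : t ≡ 1 [MOD p ^ a]) (htp : ¬ p ∣ t) (htm : t ≡ 1 [MOD M / p ^ M.factorization p])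
    (hk : ¬ p ∣ k) (hk1 : a = 0 → Nat.Coprime k (p - 1)) :
    ∃ j : ℕ, (t ^ k) ^ j ≡ t [MOD M] := by
  have hp : p.Prime := Fact.out
  -- a period of `t` which is prime to `k`
  obtain ⟨c, hc1, hc2⟩ : ∃ c : ℕ, t ^ c ≡ 1 [MOD p] ∧ Nat.Coprime k c := by
    rcases Nat.eq_zero_or_pos a with h | h
    · refine ⟨p - 1, ?_, hk1 h⟩
      have h1 : Nat.Coprime t p := ((Nat.Prime.coprime_iff_not_dvd hp).mpr htp).symm
      have h2 := Nat.ModEq.pow_totient h1
      rwa [Nat.totient_prime hp] at h2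
    · refine ⟨1, ?_, Nat.coprime_one_right _⟩
      rw [pow_one]
      exact hta.of_dvd (dvd_pow_self p (by omega))
  have hpow : t ^ (c * p ^ M.factorization p) ≡ 1 [MOD M] := by
    apply modEq_of hp hM
    · have h1 : (p : ℤ) ∣ (t : ℤ) ^ c - 1 := by
        have h2 := (Nat.modEq_iff_dvd.1 hc1.symm)
        push_cast at h2
        exact h2
      have h3 := dvd_sub_pow_of_dvd_sub h1 (M.factorization p)
      rw [one_pow] at h3
      have h4 : ((p : ℤ) ^ M.factorization p) ∣ ((t : ℤ) ^ c) ^ p ^ M.factorization p - 1 :=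
        (pow_dvd_pow _ (Nat.le_succ _)).trans h3
      have h5 : (1 : ℕ) ≡ t ^ (c * p ^ M.factorization p) [MOD p ^ M.factorization p] := by
        rw [Nat.modEq_iff_dvd]
        push_cast
        rw [pow_mul]
        exact h4
      exact h5.symm
    · have h1 := htm.pow (c * p ^ M.factorization p)
      rwa [one_pow] at h1
  let u : (ZMod M)ˣ := ZMod.unitOfCoprime t ht
  have hu : ∀ i : ℕ, ((u ^ i : (ZMod M)ˣ) : ZMod M) = ((t ^ i : ℕ) : ZMod M) := by
    intro i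
    rw [Units.val_pow_eq_pow_val, ZMod.coe_unitOfCoprime, Nat.cast_pow]
  have hu1 : u ^ (c * p ^ M.factorization p) = 1 := by
    apply Units.ext
    rw [hu, Units.val_one, ← Nat.cast_one, ZMod.natCast_eq_natCast_iff]
    exact hpow
  have hcop : Nat.Coprime k (orderOf u) := by
    refine Nat.Coprime.coprime_dvd_right (orderOf_dvd_iff_pow_eq_one.2 hu1) ?_
    refine Nat.Coprime.mul_right hc2 (Nat.Coprime.pow_right _ ?_)
    exact ((Nat.Prime.coprime_iff_not_dvd hp).mpr hk).symm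
  obtain ⟨j, hj⟩ := exists_pow_eq_self_of_coprime hcop
  refine ⟨j, ?_⟩
  rw [← ZMod.natCast_eq_natCast_iff, ← pow_mul, ← hu, pow_mul, hj]
  exact ZMod.coe_unitOfCoprime t ht

/-! ### The stabiliser in `E / N` -/

lemma FixedBy.mul [N.Normal] {M : Subgroup E} {ψ : (M ⊓ N : Subgroup E) → ℂ} {s t : ℕ} {e f : E}
    (hf : f ∈ M) (h1 : FixedBy s N M ψ e) (h2 : FixedBy t N M ψ f) :
    FixedBy (t * s) N M ψ (e * f) := by
  intro g g' hg
  have h3 : f * (g : E) ^ t * f⁻¹ ∈ (M ⊓ N : Subgroup E) :=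
    ⟨M.mul_mem (M.mul_mem hf (M.pow_mem g.2.1 t)) (M.inv_mem hf),
      ‹N.Normal›.conj_mem _ (N.pow_mem g.2.2 t) f⟩
  have h4 := h2 g ⟨_, h3⟩ rfl
  rw [← h4]
  apply h1
  rw [hg]
  change e * f * (g : E) ^ (t * s) * (e * f)⁻¹ = e * (f * (g : E) ^ t * f⁻¹) ^ s * e⁻¹
  rw [conj_pow, ← pow_mul]
  group

lemma FixedBy.one {M : Subgroup E} (ψ : (M ⊓ N : Subgroup E) → ℂ) : FixedBy 1 N M ψ 1 := by
  intro g g' hg
  congr 1
  apply Subtype.ext
  rw [hg]
  simp

lemma FixedBy.pow [N.Normal] {M : Subgroup E} {ψ : (M ⊓ N : Subgroup E) → ℂ} {s : ℕ} {e : E}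
    (he : e ∈ M) (h : FixedBy s N M ψ e) (k : ℕ) : FixedBy (s ^ k) N M ψ (e ^ k) := by
  induction k with
  | zero => simpa using FixedBy.one ψ
  | succ k ih =>
    have h1 := FixedBy.mul he ih h
    rwa [← pow_succ, mul_comm, ← pow_succ] at h1

/-- the subgroup `N_E(σ, ψ) N` of `E` -/
def stab [N.Normal] {M : Subgroup E} (ψ : (M ⊓ N : Subgroup E) → ℂ) : Subgroup E where
  carrier := {y | InvBy 1 N M ψ y}
  one_mem' := ⟨1, M.one_mem, by simp, FixedBy.one ψ⟩
  mul_mem' := by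
    rintro x y ⟨e, he, he1, he2⟩ ⟨f, hf, hf1, hf2⟩
    refine ⟨e * f, M.mul_mem he hf, ?_, ?_⟩
    · have h1 := ‹N.Normal›.conj_mem _ hf1 x
      have h2 := N.mul_mem he1 h1
      have h3 : e * x⁻¹ * (x * (f * y⁻¹) * x⁻¹) = e * f * (x * y)⁻¹ := by group
      rwa [h3] at h2
    · have h1 := FixedBy.mul hf he2 hf2
      rwa [one_mul] at h1
  inv_mem' := by
    rintro x ⟨e, he, he1, he2⟩
    refine ⟨e⁻¹, M.inv_mem he, ?_, ?_⟩
    · have h1 := ‹N.Normal›.conj_mem _ (N.inv_mem he1) e⁻¹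
      have h2 : e⁻¹ * (e * x⁻¹)⁻¹ * e⁻¹⁻¹ = e⁻¹ * x⁻¹⁻¹ := by group
      rwa [h2] at h1
    · intro g g' hg
      symm
      apply he2
      rw [hg]
      simp [mul_assoc]

lemma mem_stab [N.Normal] {M : Subgroup E} {ψ : (M ⊓ N : Subgroup E) → ℂ} {y : E} :
    y ∈ stab ψ ↔ InvBy 1 N M ψ y := Iff.rfl

lemma le_stab [N.Normal] {M : Subgroup E} (ψ : (M ⊓ N : Subgroup E) → ℂ) : N ≤ stab ψ := by
  intro y hy
  exact ⟨1, M.one_mem, by rw [one_mul]; exact N.inv_mem hy, FixedBy.one ψ⟩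

/-- the linking lemma -/
lemma link [Fact p.Prime] [Finite E] [N.Normal] {M : Subgroup E} {t a k : ℕ}
    (ht : Nat.Coprime t (Nat.card N)) (hta : t ≡ 1 [MOD p ^ a]) (htp : ¬ p ∣ t)
    (htm : t ≡ 1 [MOD Nat.card N / p ^ (Nat.card N).factorization p])
    (hk : ¬ p ∣ k) (hk1 : a = 0 → Nat.Coprime k (p - 1)) {y : E} (hy : y ^ k ∈ N)
    {ψ : (M ⊓ N : Subgroup E) → ℂ} (hψ : IsIrreducibleCharacter ψ) :
    InvBy t N M ψ y ↔ (∀ g, ψ (g ^ t) = ψ g) ∧ InvBy 1 N M ψ y := by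
  constructor
  · rintro ⟨e, he, he1, he2⟩
    have hek : e ^ k ∈ (M ⊓ N : Subgroup E) := by
      have h1 : ((e : E) : E ⧸ N) = (y : E ⧸ N) := by
        have h2 : (((e * y⁻¹ : E)) : E ⧸ N) = 1 := (QuotientGroup.eq_one_iff _).2 he1
        rw [QuotientGroup.mk_mul, QuotientGroup.mk_inv, mul_inv_eq_one] at h2
        exact h2
      have h2 : e ^ k ∈ N := by
        rw [← QuotientGroup.eq_one_iff, QuotientGroup.mk_pow, h1, ← QuotientGroup.mk_pow,
          QuotientGroup.eq_one_iff]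
        exact hy
      exact ⟨M.pow_mem he k, h2⟩
    have : Fintype (M ⊓ N : Subgroup E) := Fintype.ofFinite _
    have hcl : Pool.Agent.Helper884.IC.IsClass ψ :=
      Pool.Agent.Helper884.IC.IsIrrChar.isClass hψ
    have h1 : ∀ g, ψ (g ^ (t ^ k)) = ψ g := by
      intro g
      rw [← hcl (g ^ (t ^ k)) ⟨e ^ k, hek⟩]
      exact FixedBy.pow he he2 k g _ rfl
    obtain ⟨j, hj⟩ := exists_root (p := p) (k := k) Nat.card_pos.ne' ht hta htp htm hk hk1
    have h2 : ∀ g, ψ (g ^ t) = ψ g := by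
      intro g
      have hdvd : orderOf g ∣ Nat.card N := (orderOf_dvd_natCard g).trans
        (Subgroup.card_dvd_of_le (inf_le_right : (M ⊓ N : Subgroup E) ≤ N))
      have h3 : g ^ t = g ^ (t ^ k) ^ j := pow_eq_pow_iff_modEq.mpr (hj.symm.of_dvd hdvd)
      rw [h3]
      exact char_pow_pow h1 j g
    refine ⟨h2, e, he, he1, fun g g' hg => ?_⟩
    rw [← h2 g']
    apply he2
    change (g' : E) ^ t = _
    rw [hg, pow_one, conj_pow]
  · rintro ⟨h2, e, he, he1, he2⟩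
    refine ⟨e, he, he1, fun g g' hg => ?_⟩
    have hh : e * (g : E) * e⁻¹ ∈ (M ⊓ N : Subgroup E) :=
      ⟨M.mul_mem (M.mul_mem he g.2.1) (M.inv_mem he), ‹N.Normal›.conj_mem _ g.2.2 e⟩
    have h3 : g' = (⟨_, hh⟩ : (M ⊓ N : Subgroup E)) ^ t := by
      apply Subtype.ext
      rw [hg]
      change _ = (e * (g : E) * e⁻¹) ^ t
      rw [conj_pow]
    rw [h3, h2]
    apply he2
    rw [pow_one]

/-! ### The counts -/

/-- The number of the irreducible characters `ψ` of `M ⊓ N` with the property `R` and such that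
`N_{E/N}(σ, ψ)` contains the coset of `y` (`M = E_σ`). -/
def cI (N : Subgroup E) (R : ∀ M : Subgroup E, ((M ⊓ N : Subgroup E) → ℂ) → Prop) (y : E)
    (M : Subgroup E) : ℕ :=
  Nat.card {ψ : (M ⊓ N : Subgroup E) → ℂ // IsIrreducibleCharacter ψ ∧ R M ψ ∧ InvBy 1 N M ψ y}

/-- The number of the irreducible characters `ψ` of `M ⊓ N` with the property `R` and such that
`N_{E/N}(σ, ψ) = U/N` (`M = E_σ`). -/
def cS (N : Subgroup E) (R : ∀ M : Subgroup E, ((M ⊓ N : Subgroup E) → ℂ) → Prop)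
    (U : Subgroup E) (M : Subgroup E) : ℕ :=
  Nat.card {ψ : (M ⊓ N : Subgroup E) → ℂ // IsIrreducibleCharacter ψ ∧ R M ψ ∧
    ∀ y : E, y ∈ U ↔ InvBy 1 N M ψ y}

/-- all characters -/
def RAll (N : Subgroup E) : ∀ M : Subgroup E, ((M ⊓ N : Subgroup E) → ℂ) → Prop := fun _ _ => True

/-- the `p^a`-rational characters -/
def RRat (p a : ℕ) (N : Subgroup E) : ∀ M : Subgroup E, ((M ⊓ N : Subgroup E) → ℂ) → Prop :=
  fun _ ψ => IsRationalChar p a ψ

/-- the characters of `p`-rationality level exactly `a` (for `a ≥ 1`) -/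
def RLev (p a : ℕ) (N : Subgroup E) : ∀ M : Subgroup E, ((M ⊓ N : Subgroup E) → ℂ) → Prop :=
  fun _ ψ => IsRationalChar p a ψ ∧ ¬ IsRationalChar p (a - 1) ψ

theorem sum_cI [Fact p.Prime] [Finite E] [N.Normal] {a k : ℕ} (ha : p = 2 → 2 ≤ a)
    (hk : ¬ p ∣ k) (hk1 : a = 0 → Nat.Coprime k (p - 1)) {y : E} (hy : y ^ k ∈ N) :
    nSum p N (fun M => (cI N (RRat p a N) y M : ℤ)) =
      nSum p N (fun M => (cI N (RAll N) y M : ℤ)) := by
  obtain ⟨t, ht, hta, htp, htm, hd⟩ := exists_detect (p := p) (M := Nat.card N) (a := a)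
    Nat.card_pos.ne' ha
  have e1 : (fun M : Subgroup E => (cI N (RRat p a N) y M : ℤ)) =
      fun M : Subgroup E => (numInv t N y M : ℤ) := funext fun M => by
    unfold cI numInv
    congr 1
    refine Nat.card_congr (Equiv.subtypeEquivRight fun ψ => and_congr_right fun hψ => ?_)
    rw [link ht hta htp htm hk hk1 hy hψ]
    refine and_congr_left fun _ => ?_
    exact hd (M ⊓ N : Subgroup E) ψ
      (Subgroup.card_dvd_of_le (inf_le_right : (M ⊓ N : Subgroup E) ≤ N))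
  have e2 : (fun M : Subgroup E => (cI N (RAll N) y M : ℤ)) =
      fun M : Subgroup E => (numInv 1 N y M : ℤ) := funext fun M => by
    unfold cI numInv RAll
    congr 1
    refine Nat.card_congr (Equiv.subtypeEquivRight fun ψ => and_congr_right fun _ => ?_)
    exact ⟨fun h => h.2, fun h => ⟨trivial, h⟩⟩
  rw [e1, e2]
  exact master ht (Nat.coprime_one_left _) htm y

lemma nSum_sum [Finite E] {ι : Type} (s : Finset ι) (f : ι → Subgroup E → ℤ) :
    nSum p N (fun M => ∑ i ∈ s, f i M) = ∑ i ∈ s, nSum p N (f i) := by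
  have : Fintype (Quotient (nchainSetoid p N)) := Fintype.ofFinite _
  unfold nSum
  simp only [finsum_eq_sum_of_fintype]
  rw [Finset.sum_comm]
  refine Finset.sum_congr rfl fun c _ => ?_
  rw [Finset.mul_sum]

lemma exists_gen [Finite E] [N.Normal] [IsCyclic (E ⧸ N)] (U : Subgroup E) :
    ∃ y ∈ U, ∀ u ∈ U, ∃ i : ℤ, u * (y ^ i)⁻¹ ∈ N := by
  have h0 : IsCyclic (U.map (QuotientGroup.mk' N)) := inferInstance
  obtain ⟨⟨g, hg⟩, hgen⟩ := h0.exists_generator
  obtain ⟨y, hyU, rfl⟩ := hg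
  refine ⟨y, hyU, fun u hu => ?_⟩
  obtain ⟨i, hi⟩ := Subgroup.mem_zpowers_iff.1
    (hgen ⟨QuotientGroup.mk' N u, Subgroup.mem_map_of_mem _ hu⟩)
  refine ⟨i, ?_⟩
  have h1 : (QuotientGroup.mk' N y) ^ i = QuotientGroup.mk' N u := congrArg Subtype.val hi
  rw [← QuotientGroup.eq_one_iff, QuotientGroup.mk_mul, QuotientGroup.mk_inv, QuotientGroup.mk_zpow]
  rw [mul_inv_eq_one]
  exact h1.symm

/-- partition by the stabiliser -/
lemma cI_eq_sum [Fintype E] [N.Normal] [Fintype (Subgroup E)]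
    (R : ∀ M : Subgroup E, ((M ⊓ N : Subgroup E) → ℂ) → Prop) {U : Subgroup E} {y : E}
    (hyU : y ∈ U) (hy : ∀ u ∈ U, ∃ i : ℤ, u * (y ^ i)⁻¹ ∈ N) (M : Subgroup E) :
    cI N R y M = ∑ V ∈ Finset.univ.filter (fun V : Subgroup E => U ≤ V), cS N R V M := by
  have hle : ∀ ψ : (M ⊓ N : Subgroup E) → ℂ, InvBy 1 N M ψ y ↔ U ≤ stab ψ := by
    intro ψ
    constructor
    · intro h u hu
      obtain ⟨i, hi⟩ := hy u hu
      have h1 : y ^ i ∈ stab ψ := Subgroup.zpow_mem _ (mem_stab.2 h) i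
      have h2 := Subgroup.mul_mem _ (le_stab ψ hi) h1
      rwa [inv_mul_cancel_right] at h2
    · intro h
      exact mem_stab.1 (h hyU)
  have hS : ∀ (V : Subgroup E) (ψ : (M ⊓ N : Subgroup E) → ℂ),
      (∀ y : E, y ∈ V ↔ InvBy 1 N M ψ y) ↔ stab ψ = V := by
    intro V ψ
    rw [SetLike.ext_iff]
    exact forall_congr' fun y => ⟨fun h => h.symm, fun h => h.symm⟩
  have hfin : ∀ V : Subgroup E, Finite {ψ : (M ⊓ N : Subgroup E) → ℂ //
      IsIrreducibleCharacter ψ ∧ R M ψ ∧ ∀ y : E, y ∈ V ↔ InvBy 1 N M ψ y} := fun V =>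
    finite_irr _ _
  have h1 : ∑ V ∈ Finset.univ.filter (fun V : Subgroup E => U ≤ V), cS N R V M =
      ∑ V : {V : Subgroup E // U ≤ V}, cS N R V.1 M :=
    Finset.sum_subtype _ (by simp) (fun V => cS N R V M)
  rw [h1]
  unfold cI cS
  rw [← Nat.card_sigma]
  refine Nat.card_congr
    { toFun := fun ψ => ⟨⟨stab ψ.1, (hle ψ.1).1 ψ.2.2.2⟩, ⟨ψ.1, ψ.2.1, ψ.2.2.1, (hS _ _).2 rfl⟩⟩
      invFun := fun t => ⟨t.2.1, t.2.2.1, t.2.2.2.1, (hle _).2 (by
        rw [(hS _ _).1 t.2.2.2.2]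
        exact t.1.2)⟩
      left_inv := fun ψ => rfl
      right_inv := ?_ }
  rintro ⟨⟨V, hV⟩, ⟨ψ, h2, h3, h4⟩⟩
  have h5 : stab ψ = V := (hS _ _).1 h4
  subst h5
  rfl

theorem sum_cS [Fact p.Prime] [Finite E] [N.Normal] [IsCyclic (E ⧸ N)] {a : ℕ}
    (hk : ¬ p ∣ Nat.card (E ⧸ N)) (ha : p = 2 → 2 ≤ a)
    (hk1 : a = 0 → Nat.Coprime (Nat.card (E ⧸ N)) (p - 1)) (U : Subgroup E) :
    nSum p N (fun M => (cS N (RRat p a N) U M : ℤ)) =
      nSum p N (fun M => (cS N (RAll N) U M : ℤ)) := by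
  have : Fintype E := Fintype.ofFinite E
  have : Fintype (Subgroup E) := Fintype.ofFinite _
  induction U using WellFoundedGT.induction with
  | _ U ih =>
    obtain ⟨y, hyU, hy⟩ := exists_gen (N := N) U
    have hyk : y ^ Nat.card (E ⧸ N) ∈ N := by
      rw [← QuotientGroup.eq_one_iff, QuotientGroup.mk_pow]
      exact pow_card_eq_one'
    have h0 := sum_cI (p := p) (N := N) ha hk hk1 hyk
    have h1 : ∀ R : ∀ M : Subgroup E, ((M ⊓ N : Subgroup E) → ℂ) → Prop,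
        nSum p N (fun M => (cI N R y M : ℤ)) = nSum p N (fun M => (cS N R U M : ℤ)) +
          ∑ V ∈ Finset.univ.filter (fun V : Subgroup E => U < V),
            nSum p N (fun M => (cS N R V M : ℤ)) := by
      intro R
      have e1 : (fun M : Subgroup E => (cI N R y M : ℤ)) = fun M : Subgroup E =>
          ∑ V ∈ Finset.univ.filter (fun V : Subgroup E => U ≤ V), (cS N R V M : ℤ) :=
        funext fun M => by
          rw [cI_eq_sum R hyU hy M]
          push_cast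
          rfl
      rw [e1, nSum_sum]
      have e2 : Finset.univ.filter (fun V : Subgroup E => U ≤ V) =
          insert U (Finset.univ.filter (fun V : Subgroup E => U < V)) := by
        ext V
        simp only [Finset.mem_filter, Finset.mem_univ, true_and, Finset.mem_insert]
        rw [le_iff_eq_or_lt, eq_comm]
      rw [e2, Finset.sum_insert (by simp)]
    rw [h1, h1] at h0
    have h2 : ∑ V ∈ Finset.univ.filter (fun V : Subgroup E => U < V),
        nSum p N (fun M => (cS N (RRat p a N) V M : ℤ)) =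
        ∑ V ∈ Finset.univ.filter (fun V : Subgroup E => U < V),
        nSum p N (fun M => (cS N (RAll N) V M : ℤ)) :=
      Finset.sum_congr rfl fun V hV => ih V (Finset.mem_filter.1 hV).2
    rw [h2] at h0
    exact add_right_cancel h0

lemma lev_add [Finite E] {a : ℕ} (Q : ∀ M : Subgroup E, ((M ⊓ N : Subgroup E) → ℂ) → Prop)
    (M : Subgroup E) :
    Nat.card {ψ : (M ⊓ N : Subgroup E) → ℂ // IsIrreducibleCharacter ψ ∧ RRat p a N M ψ ∧ Q M ψ} =
      Nat.card {ψ : (M ⊓ N : Subgroup E) → ℂ //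
        IsIrreducibleCharacter ψ ∧ RLev p a N M ψ ∧ Q M ψ} +
      Nat.card {ψ : (M ⊓ N : Subgroup E) → ℂ //
        IsIrreducibleCharacter ψ ∧ RRat p (a - 1) N M ψ ∧ Q M ψ} := by
  have f1 : Finite {ψ : (M ⊓ N : Subgroup E) → ℂ //
        IsIrreducibleCharacter ψ ∧ RLev p a N M ψ ∧ Q M ψ} := finite_irr _ _
  have f2 : Finite {ψ : (M ⊓ N : Subgroup E) → ℂ //
        IsIrreducibleCharacter ψ ∧ RRat p (a - 1) N M ψ ∧ Q M ψ} := finite_irr _ _
  rw [← Nat.card_sum]
  refine Nat.card_congr ?_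
  have h1 : ∀ ψ : (M ⊓ N : Subgroup E) → ℂ,
      (IsIrreducibleCharacter ψ ∧ RRat p a N M ψ ∧ Q M ψ) ↔
      ((IsIrreducibleCharacter ψ ∧ RLev p a N M ψ ∧ Q M ψ) ∨
        (IsIrreducibleCharacter ψ ∧ RRat p (a - 1) N M ψ ∧ Q M ψ)) := by
    intro ψ
    constructor
    · rintro ⟨h1, h2, h0⟩
      by_cases h3 : RRat p (a - 1) N M ψ
      · exact Or.inr ⟨h1, h3, h0⟩
      · exact Or.inl ⟨h1, ⟨h2, h3⟩, h0⟩
    · rintro (⟨h1, ⟨h2, -⟩, h0⟩ | ⟨h1, h2, h0⟩)
      · exact ⟨h1, h2, h0⟩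
      · exact ⟨h1, isRationalChar_mono (Nat.sub_le a 1) h2, h0⟩
  refine (Equiv.subtypeEquivRight h1).trans (subtypeOrEquiv _ _ ?_)
  rw [Pi.disjoint_iff]
  intro ψ
  rw [Prop.disjoint_iff]
  rintro ⟨⟨-, ⟨-, h2⟩, -⟩, -, h3, -⟩
  exact h2 h3

lemma nSum_sub [Finite E] (f g : Subgroup E → ℤ) :
    nSum p N (fun H => f H - g H) = nSum p N f - nSum p N g := by
  have : Fintype (Quotient (nchainSetoid p N)) := Fintype.ofFinite _
  unfold nSum
  rw [finsum_eq_sum_of_fintype, finsum_eq_sum_of_fintype, finsum_eq_sum_of_fintype,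
    ← Finset.sum_sub_distrib]
  refine Finset.sum_congr rfl fun c _ => ?_
  ring

theorem lev_cI [Fact p.Prime] [Finite E] [N.Normal] {a k : ℕ} (ha : p = 2 → 3 ≤ a)
    (hk : ¬ p ∣ k) (hk1 : a ≤ 1 → Nat.Coprime k (p - 1)) {y : E} (hy : y ^ k ∈ N) :
    nSum p N (fun M => (cI N (RLev p a N) y M : ℤ)) = 0 := by
  have e : (fun M : Subgroup E => (cI N (RLev p a N) y M : ℤ)) =
      fun M : Subgroup E => (cI N (RRat p a N) y M : ℤ) - (cI N (RRat p (a - 1) N) y M : ℤ) :=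
    funext fun M => by
      have h := lev_add (p := p) (a := a) (N := N) (fun M ψ => InvBy 1 N M ψ y) M
      unfold cI
      rw [h]
      push_cast
      ring
  rw [e, nSum_sub, sum_cI (fun h => by have := ha h; omega) hk (fun h => hk1 (by omega)) hy,
    sum_cI (fun h => by have := ha h; omega) hk (fun h => hk1 (by omega)) hy, sub_self]

theorem lev_cS [Fact p.Prime] [Finite E] [N.Normal] [IsCyclic (E ⧸ N)] {a : ℕ}
    (hk : ¬ p ∣ Nat.card (E ⧸ N)) (ha : p = 2 → 3 ≤ a)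
    (hk1 : a ≤ 1 → Nat.Coprime (Nat.card (E ⧸ N)) (p - 1)) (U : Subgroup E) :
    nSum p N (fun M => (cS N (RLev p a N) U M : ℤ)) = 0 := by
  have e : (fun M : Subgroup E => (cS N (RLev p a N) U M : ℤ)) =
      fun M : Subgroup E => (cS N (RRat p a N) U M : ℤ) - (cS N (RRat p (a - 1) N) U M : ℤ) :=
    funext fun M => by
      have h := lev_add (p := p) (a := a) (N := N) (fun M ψ => ∀ y : E, y ∈ U ↔ InvBy 1 N M ψ y) M
      unfold cS
      rw [h]
      push_cast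
      ring
  rw [e, nSum_sub, sum_cS hk (fun h => by have := ha h; omega) (fun h => hk1 (by omega)) U,
    sum_cS hk (fun h => by have := ha h; omega) (fun h => hk1 (by omega)) U, sub_self]

end Pool.Agent.V1140.DI
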