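import Pool.Agent.V1140.DI.Levels

/-!
# Radical chains and all chains give the same alternating sums (Knörr and Robinson)
-/

set_option autoImplicit false

open scoped Classical BigOperators

set_option linter.unusedSectionVars false

noncomputable section

namespace Pool.Agent.V1140.DI

open Pool.Agent.Y63.KR

variable {p : ℕ} {E : Type} [Group E] {N : Subgroup E}

/-- `P = O_p(X)`: `P` is the largest normal `p`-subgroup of `X`. -/
structure IsOp (p : ℕ) (X P : Subgroup E) : Prop where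
  le : P ≤ X
  isPGroup : IsPGroup p P
  normal : ∀ x ∈ X, conjSub x P = P
  max : ∀ Q : Subgroup E, Q ≤ X → IsPGroup p Q → (∀ x ∈ X, conjSub x Q = Q) → Q ≤ P

/-- The stabiliser in `N` of all members of `C`. -/
def gs (N : Subgroup E) (C : Set (Subgroup E)) : Subgroup E := chainStabilizer C ⊓ N

/-- The members of `σ` contained in `P`. -/
def dn (σ : Set (Subgroup E)) (P : Subgroup E) : Set (Subgroup E) := {Q | Q ∈ σ ∧ Q ≤ P}

/-- `σ` is (the set of the members, except `P_0 = 1`, of) a radical chain: each member `P_k` is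
`O_p(N_N(C_k))`, where `C_k` is the chain of the members contained in `P_k`. -/
structure IsRadical (p : ℕ) (N : Subgroup E) (σ : Set (Subgroup E)) : Prop where
  chain : IsNChain p N σ
  op : ∀ P ∈ σ, IsOp p (gs N (dn σ P)) P

lemma IsOp.unique {X P Q : Subgroup E} (h1 : IsOp p X P) (h2 : IsOp p X Q) : P = Q :=
  le_antisymm (h2.max P h1.le h1.isPGroup h1.normal) (h1.max Q h2.le h2.isPGroup h2.normal)

lemma exists_Op [Fact p.Prime] [Finite E] (X : Subgroup E) : ∃ P, IsOp p X P := by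
  have hne : ({Q : Subgroup E | Q ≤ X ∧ IsPGroup p Q ∧ ∀ x ∈ X, conjSub x Q = Q}).Nonempty := by
    refine ⟨⊥, bot_le, IsPGroup.of_bot, fun x _ => ?_⟩
    ext y
    rw [mem_conjSub, Subgroup.mem_bot, Subgroup.mem_bot]
    constructor
    · intro hy
      have : y = x * (x⁻¹ * y * x) * x⁻¹ := by group
      rw [this, hy]; group
    · rintro rfl; group
  obtain ⟨M, hM⟩ := (Set.toFinite _).exists_maximal hne
  refine ⟨M, hM.1.1, hM.1.2.1, hM.1.2.2, fun Q h1 h2 h3 => ?_⟩
  have h4 : M ⊔ Q ∈ {Q : Subgroup E | Q ≤ X ∧ IsPGroup p Q ∧ ∀ x ∈ X, conjSub x Q = Q} := by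
    refine ⟨sup_le hM.1.1 h1, IsPGroup.to_sup_of_normal_left' hM.1.2.1 h2 (fun q hq => ?_),
      fun x hx => ?_⟩
    · exact conjSub_eq_iff.1 (hM.1.2.2 q (h1 hq))
    · have e1 : conjSub x (M ⊔ Q) = conjSub x M ⊔ conjSub x Q := Subgroup.map_sup _ _ _
      rw [e1, hM.1.2.2 x hx, h3 x hx]
  exact le_sup_right.trans (hM.2 h4 le_sup_left)

lemma IsOp.conj {X P : Subgroup E} (h : IsOp p X P) (e : E) :
    IsOp p (conjSub e X) (conjSub e P) := by
  refine ⟨conjSub_le h.le, h.isPGroup.map _, fun x hx => ?_, fun Q h1 h2 h3 => ?_⟩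
  · rw [mem_conjSub] at hx
    have h1 := h.normal _ hx
    have e1 : x * e = e * (e⁻¹ * x * e) := by group
    rw [← conjSub_mul, e1, conjSub_mul, h1]
  · have h4 : conjSub e⁻¹ Q ≤ X := by
      have := conjSub_le (g := e⁻¹) h1
      rwa [conjSub_inv_conjSub] at this
    have h5 := h.max (conjSub e⁻¹ Q) h4 (h2.map _) (fun x hx => by
      have h6 : e * x * e⁻¹ ∈ conjSub e X := conj_mem_conjSub hx
      have h7 := h3 _ h6
      have e1 : x * e⁻¹ = e⁻¹ * (e * x * e⁻¹) := by group
      rw [← conjSub_mul, e1, conjSub_mul, h7])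
    have h8 := conjSub_le (g := e) h5
    rwa [conjSub_conjSub_inv] at h8

/-- `O_p(X)` -/
def Op (p : ℕ) [Fact p.Prime] [Finite E] (X : Subgroup E) : Subgroup E := (exists_Op (p := p) X).choose

lemma isOp_Op [Fact p.Prime] [Finite E] (X : Subgroup E) : IsOp p X (Op p X) :=
  (exists_Op X).choose_spec

lemma Op_fix [Fact p.Prime] [Finite E] {X : Subgroup E} {e : E} (h : conjSub e X = X) :
    conjSub e (Op p X) = Op p X := by
  have h1 := (isOp_Op (p := p) X).conj e
  rw [h] at h1
  exact h1.unique (isOp_Op X)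

lemma conjSub_normal [N.Normal] (e : E) : conjSub e N = N := by
  ext x
  rw [mem_conjSub]
  constructor
  · intro h
    have := ‹N.Normal›.conj_mem _ h e
    have e1 : e * (e⁻¹ * x * e) * e⁻¹ = x := by group
    rwa [e1] at this
  · intro h
    have := ‹N.Normal›.conj_mem _ h e⁻¹
    rwa [inv_inv] at this

lemma gs_conj [N.Normal] (C : Set (Subgroup E)) (e : E) :
    gs N (conjSub e '' C) = conjSub e (gs N C) := by
  unfold gs
  rw [chainStabilizer_conj]
  ext x
  rw [Subgroup.mem_inf, mem_conjSub, mem_conjSub, Subgroup.mem_inf]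
  refine and_congr_right fun _ => ?_
  have h := conjSub_normal (N := N) e
  constructor
  · intro h1
    rw [← h, mem_conjSub] at h1
    exact h1
  · intro h1
    rw [← h, mem_conjSub]
    exact h1

lemma gs_fix [N.Normal] {C : Set (Subgroup E)} {e : E} (h : ∀ Q ∈ C, conjSub e Q = Q) :
    conjSub e (gs N C) = gs N C := by
  rw [← gs_conj]
  congr 1
  ext Q
  constructor
  · rintro ⟨R, hR, rfl⟩
    rw [h R hR]
    exact hR
  · intro hQ
    exact ⟨Q, hQ, h Q hQ⟩

lemma IsRadical.conj [N.Normal] {σ : Set (Subgroup E)} (h : IsRadical p N σ) (e : E) :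
    IsRadical p N (conjSub e '' σ) := by
  refine ⟨h.chain.conj e, ?_⟩
  rintro _ ⟨P, hP, rfl⟩
  have h1 : dn (conjSub e '' σ) (conjSub e P) = conjSub e '' dn σ P := by
    ext Q
    constructor
    · rintro ⟨⟨R, hR, rfl⟩, h2⟩
      refine ⟨R, ⟨hR, ?_⟩, rfl⟩
      have := conjSub_le (g := e⁻¹) h2
      rwa [conjSub_inv_conjSub, conjSub_inv_conjSub] at this
    · rintro ⟨R, ⟨hR, h2⟩, rfl⟩
      exact ⟨⟨R, hR, rfl⟩, conjSub_le h2⟩
  rw [h1, gs_conj]
  exact (h.op P hP).conj e

lemma sInf_mem_chain [Finite E] {σ s : Set (Subgroup E)} (hσ : IsChain (· ≤ ·) σ) (hs : s ⊆ σ)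
    (hne : s.Nonempty) : sInf s ∈ s := by
  obtain ⟨M, hM⟩ := (Set.toFinite s).exists_minimal hne
  have h1 : IsLeast s M := by
    refine ⟨hM.1, fun P hP => ?_⟩
    rcases hσ.total (hs hP) (hs hM.1) with h1 | h1
    · exact hM.2 hP h1
    · exact h1
  rw [h1.isGLB.sInf_eq]
  exact hM.1

/-- normalisers grow in `p`-groups -/
lemma grow [Fact p.Prime] [Finite E] {P R : Subgroup E} (hR : IsPGroup p R) (h : P < R) :
    P < R ⊓ Subgroup.normalizer (P : Set E) := by
  refine lt_of_le_of_ne (le_inf h.le Subgroup.le_normalizer) fun heq => ?_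
  have hnil : Group.IsNilpotent R := hR.isNilpotent
  have hnc := Group.normalizerCondition_of_isNilpotent (G := R)
  have hlt : P.subgroupOf R < ⊤ := by
    rw [lt_top_iff_ne_top]
    intro h1
    rw [Subgroup.subgroupOf_eq_top] at h1
    exact h.not_ge h1
  obtain ⟨r, hr1, hr2⟩ := SetLike.exists_of_lt (hnc _ hlt)
  apply hr2
  suffices hN : (r : E) ∈ Subgroup.normalizer (P : Set E) by
    rw [Subgroup.mem_subgroupOf, heq]
    exact ⟨r.2, hN⟩
  rw [Subgroup.mem_normalizer_iff]
  rw [Subgroup.mem_normalizer_iff] at hr1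
  intro x
  constructor
  · intro hx
    exact (hr1 ⟨x, h.le hx⟩).1 hx
  · intro hx
    have hxR : x ∈ R := by
      have h1 := R.mul_mem (R.mul_mem (R.inv_mem r.2) (h.le hx)) r.2
      have h2 : (r : E)⁻¹ * ((r : E) * x * (r : E)⁻¹) * r = x := by group
      rwa [h2] at h1
    exact (hr1 ⟨x, hxR⟩).2 hx

/-- the members of `σ` which do not normalise `P` -/
def notn (σ : Set (Subgroup E)) (P : Subgroup E) : Set (Subgroup E) :=
  {R | R ∈ σ ∧ ¬ R ≤ Subgroup.normalizer (P : Set E)}

/-- the bad members of `σ` -/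
def bad (p : ℕ) (N : Subgroup E) (σ : Set (Subgroup E)) : Set (Subgroup E) :=
  {P | P ∈ σ ∧ ¬ ((∀ R ∈ σ, R ≤ Subgroup.normalizer (P : Set E)) ∧ IsOp p (gs N (dn σ P)) P)}

/-- the first bad member -/
def pb (p : ℕ) (N : Subgroup E) (σ : Set (Subgroup E)) : Subgroup E := sInf (bad p N σ)

/-- the toggled member, `P` the first bad member -/
def xq (p : ℕ) [Fact p.Prime] [Finite E] (N : Subgroup E) (σ : Set (Subgroup E)) (P : Subgroup E) :
    Subgroup E :=
  if (notn σ P).Nonempty then sInf (notn σ P) ⊓ Subgroup.normalizer (P : Set E)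
  else lower (Op p (gs N (dn σ P))) σ ⊔ Op p (gs N (dn σ P))

/-- insert or remove -/
def tg (X : Subgroup E) (σ : Set (Subgroup E)) : Set (Subgroup E) :=
  if X ∈ σ then σ \ {X} else insert X σ

lemma mem_tg {X Q : Subgroup E} {σ : Set (Subgroup E)} (h : Q ≠ X) : Q ∈ tg X σ ↔ Q ∈ σ := by
  unfold tg
  split_ifs
  · simp [h]
  · simp [h]

lemma tg_tg (X : Subgroup E) (σ : Set (Subgroup E)) : tg X (tg X σ) = σ := by
  by_cases h : X ∈ σ
  · have h1 : tg X σ = σ \ {X} := if_pos h
    rw [h1]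
    unfold tg
    rw [if_neg (fun h2 => h2.2 rfl), Set.insert_sdiff_singleton, Set.insert_eq_of_mem h]
  · have h1 : tg X σ = insert X σ := if_neg h
    rw [h1]
    unfold tg
    rw [if_pos (Set.mem_insert _ _)]
    ext P
    simp only [Set.mem_sdiff, Set.mem_insert_iff, Set.mem_singleton_iff]
    constructor
    · rintro ⟨h2 | h2, h3⟩
      · exact absurd h2 h3
      · exact h2
    · intro h2
      exact ⟨Or.inr h2, fun h3 => h (h3 ▸ h2)⟩

lemma ncard_tg [Finite E] (X : Subgroup E) (σ : Set (Subgroup E)) :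
    ((-1 : ℤ)) ^ (tg X σ).ncard = - (-1) ^ σ.ncard := by
  by_cases h : X ∈ σ
  · have h1 : tg X σ = σ \ {X} := if_pos h
    have h2 := Set.ncard_sdiff_singleton_add_one h (Set.toFinite σ)
    rw [h1, ← h2, pow_succ]
    ring
  · have h1 : tg X σ = insert X σ := if_neg h
    rw [h1, Set.ncard_insert_of_notMem h (Set.toFinite σ), pow_succ]
    ring

/-- what is needed of the toggled member -/
structure Good (p : ℕ) (N : Subgroup E) (σ : Set (Subgroup E)) (P X : Subgroup E) : Prop where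
  isPGroup : IsPGroup p X
  le : X ≤ N
  lt : P < X
  comp : ∀ Q ∈ σ, Q ≤ X ∨ X ≤ Q
  norm : ∀ Q ∈ σ, Q ≤ P → X ≤ Subgroup.normalizer (Q : Set E)

section

variable [Fact p.Prime] [Finite E] [N.Normal] {σ : Set (Subgroup E)} (hσ : IsNChain p N σ)
  (hb : (bad p N σ).Nonempty)

include hσ hb

lemma pb_mem : pb p N σ ∈ bad p N σ :=
  sInf_mem_chain hσ.chain.chain (fun _ h => h.1) hb

omit hσ hb in
lemma good_of_lt {Q : Subgroup E} (hQ : Q ∈ σ) (h : Q < pb p N σ) :
    (∀ R ∈ σ, R ≤ Subgroup.normalizer (Q : Set E)) ∧ IsOp p (gs N (dn σ Q)) Q := by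
  by_contra h1
  exact h.not_ge (sInf_le ⟨hQ, h1⟩)

lemma good_x : Good p N σ (pb p N σ) (xq p N σ (pb p N σ)) := by
  obtain ⟨hPσ, hPb⟩ := pb_mem hσ hb
  have hlt := fun {Q} (hQ : Q ∈ σ) h => good_of_lt (p := p) (N := N) hQ h
  generalize hP : pb p N σ = P at *
  have hPle : ∀ Q ∈ σ, Q ≤ P → Q = P ∨ Q < P := fun Q _ h => eq_or_lt_of_le h
  unfold xq
  by_cases hn : (notn σ P).Nonempty
  · rw [if_pos hn]
    have hR := sInf_mem_chain hσ.chain.chain (fun _ h => h.1) hn
    generalize hR0 : sInf (notn σ P) = R at *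
    have hPR : P < R := by
      rcases hσ.chain.chain.total hPσ hR.1 with h | h
      · refine lt_of_le_of_ne h fun h1 => hR.2 ?_
        rw [← h1]
        exact Subgroup.le_normalizer
      · exact absurd (h.trans Subgroup.le_normalizer) hR.2
    refine ⟨(hσ.chain.isPGroup R hR.1).to_le inf_le_left, inf_le_left.trans (hσ.le R hR.1),
      grow (hσ.chain.isPGroup R hR.1) hPR, fun Q hQ => ?_, fun Q hQ hQP => ?_⟩
    · by_cases h : Q ≤ Subgroup.normalizer (P : Set E)
      · left
        rcases hσ.chain.chain.total hQ hR.1 with h1 | h1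
        · exact le_inf h1 h
        · exact absurd (h1.trans h) hR.2
      · right
        refine inf_le_left.trans ?_
        rw [← hR0]
        exact sInf_le ⟨hQ, h⟩
    · rcases hPle Q hQ hQP with h | h
      · rw [h]; exact inf_le_right
      · exact inf_le_left.trans ((hlt hQ h).1 R hR.1)
  · rw [if_neg hn]
    have hnorm : ∀ R ∈ σ, R ≤ Subgroup.normalizer (P : Set E) := by
      intro R hR
      by_contra h
      exact hn ⟨R, hR, h⟩
    have hnop : ¬ IsOp p (gs N (dn σ P)) P := fun h => hPb ⟨hnorm, h⟩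
    have hU := isOp_Op (p := p) (gs N (dn σ P))
    generalize hU0 : Op p (gs N (dn σ P)) = U at *
    have hall : ∀ R ∈ σ, R ≤ gs N (dn σ P) := by
      intro R hR
      refine le_inf (fun r hr => ?_) (hσ.le R hR)
      rw [mem_chainStabilizer]
      rintro Q ⟨hQ, hQP⟩
      rcases hPle Q hQ hQP with h | h
      · rw [h]; exact conjSub_eq_iff.2 (hnorm R hR hr)
      · exact conjSub_eq_iff.2 ((hlt hQ h).1 R hR hr)
    have hPU : P ≤ U := by
      refine hU.max P (hall P hPσ) (hσ.chain.isPGroup P hPσ) fun x hx => ?_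
      exact mem_chainStabilizer.1 hx.1 P ⟨hPσ, le_rfl⟩
    have hPU' : P < U := lt_of_le_of_ne hPU fun h => hnop (by rw [h]; rw [← h]; rwa [← h] at hU)
    have hL := lower_cases hσ.chain.chain U
    have hLg : lower U σ ≤ gs N (dn σ P) := by
      rcases hL with h | h
      · rw [h]; exact bot_le
      · exact hall _ h.1
    have hLp : IsPGroup p (lower U σ) := by
      rcases hL with h | h
      · rw [h]; exact IsPGroup.of_bot
      · exact hσ.chain.isPGroup _ h.1
    have hXg : lower U σ ⊔ U ≤ gs N (dn σ P) := sup_le hLg hU.le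
    refine ⟨?_, hXg.trans inf_le_right, lt_of_lt_of_le hPU' le_sup_right, fun Q hQ => ?_,
      fun Q hQ hQP x hx => ?_⟩
    · exact IsPGroup.to_sup_of_normal_right' hLp hU.isPGroup
        fun x hx => conjSub_eq_iff.1 (hU.normal x (hLg hx))
    · exact comparable hσ.chain.chain hQ
    · exact conjSub_eq_iff.1 (mem_chainStabilizer.1 (hXg hx).1 Q ⟨hQ, hQP⟩)

/-- a condition under which the toggled set has the same first bad member -/
lemma dn_tg {P X : Subgroup E} (hX : P < X) {Q : Subgroup E} (hQ : Q ≤ P) :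
    dn (tg X σ) Q = dn σ Q := by
  ext R
  constructor
  · rintro ⟨h1, h2⟩
    exact ⟨(mem_tg (fun h => (hX.trans_le (h ▸ h2)).not_ge hQ)).1 h1, h2⟩
  · rintro ⟨h1, h2⟩
    exact ⟨(mem_tg (fun h => (hX.trans_le (h ▸ h2)).not_ge hQ)).2 h1, h2⟩

end

section

variable [Fact p.Prime] [Finite E] [N.Normal] {σ : Set (Subgroup E)}

lemma notn_tg {P X : Subgroup E} (hX : X ≤ Subgroup.normalizer (P : Set E)) :
    notn (tg X σ) P = notn σ P := by
  ext R
  constructor
  · rintro ⟨h1, h2⟩
    exact ⟨(mem_tg (Q := R) (X := X) (by rintro rfl; exact h2 hX)).1 h1, h2⟩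
  · rintro ⟨h1, h2⟩
    exact ⟨(mem_tg (Q := R) (X := X) (by rintro rfl; exact h2 hX)).2 h1, h2⟩

lemma tg_chain {P X : Subgroup E} (hσ : IsNChain p N σ) (hX : Good p N σ P X) :
    IsNChain p N (tg X σ) := by
  have hne : X ≠ ⊥ := ((bot_le (a := P)).trans_lt hX.lt).ne'
  by_cases h : X ∈ σ
  · have h1 : tg X σ = σ \ {X} := if_pos h
    rw [h1]
    exact ⟨⟨hσ.chain.chain.mono Set.sdiff_subset, fun P hP => hσ.chain.isPGroup P hP.1,
      fun P hP => hσ.chain.ne_bot P hP.1⟩, fun P hP => hσ.le P hP.1⟩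
  · have h1 : tg X σ = insert X σ := if_neg h
    rw [h1]
    refine ⟨⟨?_, ?_, ?_⟩, ?_⟩
    · refine hσ.chain.chain.insert fun P hP _ => ?_
      rcases hX.comp P hP with h2 | h2
      · exact Or.inr h2
      · exact Or.inl h2
    · rintro P (rfl | hP)
      · exact hX.isPGroup
      · exact hσ.chain.isPGroup P hP
    · rintro P (rfl | hP)
      · exact hne
      · exact hσ.chain.ne_bot P hP
    · rintro P (rfl | hP)
      · exact hX.le
      · exact hσ.le P hP

lemma lower_tg {X U : Subgroup E} (hUX : U ≤ X) : lower U (tg X σ) = lower U σ := by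
  unfold lower
  congr 1
  ext Q
  constructor
  · rintro ⟨h1, h2⟩
    exact ⟨(mem_tg (Q := Q) (X := X) (by rintro rfl; exact h2 hUX)).1 h1, h2⟩
  · rintro ⟨h1, h2⟩
    exact ⟨(mem_tg (Q := Q) (X := X) (by rintro rfl; exact h2 hUX)).2 h1, h2⟩

/-- the toggled member depends only on what is not changed -/
lemma xq_tg {P X : Subgroup E} (hX : Good p N σ P X) (hP : P ∈ σ) (hX0 : X = xq p N σ P) :
    xq p N (tg X σ) P = X := by
  have h1 := notn_tg (σ := σ) (hX.norm P hP le_rfl)
  have h2 : dn (tg X σ) P = dn σ P := by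
    ext R
    constructor
    · rintro ⟨h1, h2⟩
      exact ⟨(mem_tg (fun h => (hX.lt.trans_le (h ▸ h2)).false)).1 h1, h2⟩
    · rintro ⟨h1, h2⟩
      exact ⟨(mem_tg (fun h => (hX.lt.trans_le (h ▸ h2)).false)).2 h1, h2⟩
  by_cases hn : (notn σ P).Nonempty
  · have h3 : X = sInf (notn σ P) ⊓ Subgroup.normalizer (P : Set E) := by
      rw [hX0]; unfold xq; rw [if_pos hn]
    unfold xq
    rw [h1, if_pos hn]
    exact h3.symm
  · have h3 : X = lower (Op p (gs N (dn σ P))) σ ⊔ Op p (gs N (dn σ P)) := by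
      rw [hX0]; unfold xq; rw [if_neg hn]
    have h4 : Op p (gs N (dn σ P)) ≤ X := by
      rw [h3]; exact le_sup_right
    unfold xq
    rw [h1, if_neg hn, h2, lower_tg h4]
    exact h3.symm

lemma pb_tg (hσ : IsNChain p N σ) (hb : (bad p N σ).Nonempty) {X : Subgroup E}
    (hX0 : X = xq p N σ (pb p N σ)) :
    (bad p N (tg X σ)).Nonempty ∧ pb p N (tg X σ) = pb p N σ := by
  obtain ⟨hPσ, hPb⟩ := pb_mem hσ hb
  have hX : Good p N σ (pb p N σ) X := by rw [hX0]; exact good_x hσ hb
  have hlt := fun {Q} (hQ : Q ∈ σ) h => good_of_lt (p := p) (N := N) hQ h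
  generalize hP : pb p N σ = P at *
  have hPX : P ≠ X := hX.lt.ne
  have hPt : P ∈ tg X σ := (mem_tg hPX).2 hPσ
  have hdn : ∀ Q, Q ≤ P → dn (tg X σ) Q = dn σ Q := by
    intro Q hQ
    ext R
    constructor
    · rintro ⟨h1, h2⟩
      exact ⟨(mem_tg (fun h => (hX.lt.trans_le ((h ▸ h2).trans hQ)).false)).1 h1, h2⟩
    · rintro ⟨h1, h2⟩
      exact ⟨(mem_tg (fun h => (hX.lt.trans_le ((h ▸ h2).trans hQ)).false)).2 h1, h2⟩
  have hbad : P ∈ bad p N (tg X σ) := by
    refine ⟨hPt, ?_⟩
    rintro ⟨h1, h2⟩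
    rw [hdn P le_rfl] at h2
    apply hPb
    refine ⟨fun R hR => ?_, h2⟩
    by_cases h3 : R = X
    · rw [h3]; exact hX.norm P hPσ le_rfl
    · exact h1 R ((mem_tg h3).2 hR)
  refine ⟨⟨P, hbad⟩, ?_⟩
  unfold pb
  refine le_antisymm (sInf_le hbad) (le_sInf fun Q hQ => ?_)
  have hch := (tg_chain hσ hX).chain.chain
  rcases hch.total hPt hQ.1 with h | h
  · exact h
  · rcases eq_or_lt_of_le h with h1 | h1
    · exact h1.symm.le
    · exfalso
      have hQσ : Q ∈ σ := (mem_tg (fun h2 => (hX.lt.trans (h2 ▸ h1)).false)).1 hQ.1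
      obtain ⟨h2, h3⟩ := hlt hQσ h1
      apply hQ.2
      refine ⟨fun R hR => ?_, by rw [hdn Q h]; exact h3⟩
      by_cases h4 : R = X
      · rw [h4]; exact hX.norm Q hQσ h
      · exact h2 R ((mem_tg h4).1 hR)

/-- elements which fix the other members fix the toggled member -/
lemma fix_x (hσ : IsNChain p N σ) (hb : (bad p N σ).Nonempty) {X : Subgroup E}
    (hX0 : X = xq p N σ (pb p N σ)) {e : E} (he : ∀ Q ∈ σ, Q ≠ X → conjSub e Q = Q) :
    conjSub e X = X := by
  obtain ⟨hPσ, hPb⟩ := pb_mem hσ hb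
  have hX : Good p N σ (pb p N σ) X := by rw [hX0]; exact good_x hσ hb
  generalize hP : pb p N σ = P at *
  have hPe : conjSub e P = P := he P hPσ hX.lt.ne
  by_cases hn : (notn σ P).Nonempty
  · have h3 : X = sInf (notn σ P) ⊓ Subgroup.normalizer (P : Set E) := by
      rw [hX0]; unfold xq; rw [if_pos hn]
    have hR := sInf_mem_chain hσ.chain.chain (fun _ h => h.1) hn
    generalize hR0 : sInf (notn σ P) = R at *
    have hRe : conjSub e R = R := he R hR.1 (fun h => hR.2 (h ▸ hX.norm P hPσ le_rfl))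
    have hiff : ∀ x : E, e⁻¹ * x * e ∈ Subgroup.normalizer (P : Set E) ↔
        x ∈ Subgroup.normalizer (P : Set E) := by
      intro x
      rw [← conjSub_eq_iff, ← conjSub_eq_iff, conjSub_mul, conjSub_mul, hPe]
      constructor
      · intro h
        have h4 := congrArg (conjSub e) h
        rwa [conjSub_conjSub_inv, hPe] at h4
      · intro h
        rw [h]
        conv_lhs => rw [← hPe]
        exact conjSub_inv_conjSub e P
    ext x
    rw [mem_conjSub, h3, Subgroup.mem_inf, Subgroup.mem_inf, hiff]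
    refine and_congr_left fun _ => ?_
    constructor
    · intro h
      rw [← hRe, mem_conjSub]
      exact h
    · intro h
      rw [← hRe, mem_conjSub] at h
      exact h
  · have h3 : X = lower (Op p (gs N (dn σ P))) σ ⊔ Op p (gs N (dn σ P)) := by
      rw [hX0]; unfold xq; rw [if_neg hn]
    have hdn : ∀ Q ∈ dn σ P, conjSub e Q = Q := fun Q hQ =>
      he Q hQ.1 (fun h => (hX.lt.trans_le (h ▸ hQ.2)).false)
    have hU : conjSub e (Op p (gs N (dn σ P))) = Op p (gs N (dn σ P)) := Op_fix (gs_fix hdn)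
    have hL : conjSub e (lower (Op p (gs N (dn σ P))) σ) = lower (Op p (gs N (dn σ P))) σ := by
      rcases lower_cases hσ.chain.chain (Op p (gs N (dn σ P))) with h | h
      · rw [h]
        exact Subgroup.map_bot _
      · refine he _ h.1 (fun h4 => h.2 ?_)
        rw [h4, h3]
        exact le_sup_right
    have e1 : conjSub e (lower (Op p (gs N (dn σ P))) σ ⊔ Op p (gs N (dn σ P))) =
        conjSub e (lower (Op p (gs N (dn σ P))) σ) ⊔ conjSub e (Op p (gs N (dn σ P))) :=
      Subgroup.map_sup _ _ _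
    rw [h3, e1, hU, hL]

lemma stab_tg (hσ : IsNChain p N σ) (hb : (bad p N σ).Nonempty) {X : Subgroup E}
    (hX0 : X = xq p N σ (pb p N σ)) : chainStabilizer (tg X σ) = chainStabilizer σ := by
  ext e
  rw [mem_chainStabilizer, mem_chainStabilizer]
  constructor
  · intro h Q hQ
    have h1 : conjSub e X = X := fix_x hσ hb hX0 fun R hR hRX => h R ((mem_tg hRX).2 hR)
    by_cases h2 : Q = X
    · rw [h2]; exact h1
    · exact h Q ((mem_tg h2).2 hQ)
  · intro h Q hQ
    have h1 : conjSub e X = X := fix_x hσ hb hX0 fun R hR _ => h R hR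
    by_cases h2 : Q = X
    · rw [h2]; exact h1
    · exact h Q ((mem_tg h2).1 hQ)

end

lemma radical_iff {σ : Set (Subgroup E)} (hσ : IsNChain p N σ) :
    IsRadical p N σ ↔ ¬ (bad p N σ).Nonempty := by
  constructor
  · rintro h ⟨P, hP, hb⟩
    refine hb ⟨fun R hR => ?_, h.op P hP⟩
    rcases hσ.chain.chain.total hR hP with h1 | h1
    · exact h1.trans Subgroup.le_normalizer
    · intro r hr
      exact conjSub_eq_iff.1 (mem_chainStabilizer.1 ((h.op R hR).le hr).1 P ⟨hP, h1⟩)
  · intro h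
    refine ⟨hσ, fun P hP => ?_⟩
    by_contra h1
    exact h ⟨P, hP, fun h2 => h1 h2.2⟩

/-- **The theorem of Knörr and Robinson on radical chains.** -/
theorem sum_radical [Fact p.Prime] [Finite E] [N.Normal] (w : Subgroup E → ℤ)
    [Fintype {σ : Set (Subgroup E) // IsNChain p N σ}]
    [Fintype {σ : Set (Subgroup E) // IsRadical p N σ}] :
    ∑ σ : {σ : Set (Subgroup E) // IsNChain p N σ}, (-1) ^ σ.1.ncard * w (chainStabilizer σ.1) =
      ∑ σ : {σ : Set (Subgroup E) // IsRadical p N σ},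
        (-1) ^ σ.1.ncard * w (chainStabilizer σ.1) := by
  rw [← Finset.sum_filter_add_sum_filter_not Finset.univ
    (fun σ : {σ : Set (Subgroup E) // IsNChain p N σ} => IsRadical p N σ.1)]
  have h0 : ∑ σ ∈ Finset.univ.filter (fun σ : {σ : Set (Subgroup E) // IsNChain p N σ} =>
      ¬ IsRadical p N σ.1), (-1) ^ σ.1.ncard * w (chainStabilizer σ.1) = 0 := by
    have hbad : ∀ σ : {σ : Set (Subgroup E) // IsNChain p N σ},
        σ ∈ Finset.univ.filter (fun σ : {σ : Set (Subgroup E) // IsNChain p N σ} =>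
          ¬ IsRadical p N σ.1) → (bad p N σ.1).Nonempty := by
      intro σ hσ
      have h1 := (Finset.mem_filter.1 hσ).2
      rw [radical_iff σ.2, not_not] at h1
      exact h1
    refine Finset.sum_involution (fun σ hσ =>
      ⟨tg (xq p N σ.1 (pb p N σ.1)) σ.1, tg_chain σ.2 (good_x σ.2 (hbad σ hσ))⟩) ?_ ?_ ?_ ?_
    · intro σ hσ
      change (-1) ^ σ.1.ncard * w (chainStabilizer σ.1) +
        (-1) ^ (tg (xq p N σ.1 (pb p N σ.1)) σ.1).ncard *
          w (chainStabilizer (tg (xq p N σ.1 (pb p N σ.1)) σ.1)) = 0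
      rw [ncard_tg, stab_tg σ.2 (hbad σ hσ) rfl]
      ring
    · intro σ hσ _ h
      have h1 : tg (xq p N σ.1 (pb p N σ.1)) σ.1 = σ.1 := congrArg Subtype.val h
      have h2 := ncard_tg (xq p N σ.1 (pb p N σ.1)) σ.1
      rw [h1] at h2
      have h3 : ((-1 : ℤ)) ^ σ.1.ncard ≠ 0 := pow_ne_zero _ (by norm_num)
      omega
    · intro σ hσ
      rw [Finset.mem_filter]
      refine ⟨Finset.mem_univ _, ?_⟩
      rw [radical_iff (tg_chain σ.2 (good_x σ.2 (hbad σ hσ))), not_not]
      exact (pb_tg σ.2 (hbad σ hσ) rfl).1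
    · intro σ hσ
      apply Subtype.ext
      change tg (xq p N (tg (xq p N σ.1 (pb p N σ.1)) σ.1)
        (pb p N (tg (xq p N σ.1 (pb p N σ.1)) σ.1))) (tg (xq p N σ.1 (pb p N σ.1)) σ.1) = σ.1
      rw [(pb_tg σ.2 (hbad σ hσ) rfl).2, xq_tg (good_x σ.2 (hbad σ hσ)) (pb_mem σ.2 (hbad σ hσ)).1
        rfl, tg_tg]
  rw [h0, add_zero]
  refine Finset.sum_bij (fun σ hσ => ⟨σ.1, (Finset.mem_filter.1 hσ).2⟩) ?_ ?_ ?_ ?_
  · intro σ _
    exact Finset.mem_univ _
  · intro σ _ τ _ h
    exact Subtype.ext (congrArg (fun x : {σ : Set (Subgroup E) // IsRadical p N σ} => x.1) h)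
  · intro σ _
    exact ⟨⟨σ.1, σ.2.chain⟩, by rw [Finset.mem_filter]; exact ⟨Finset.mem_univ _, σ.2⟩, rfl⟩
  · intro σ _
    rfl

/-! ### Classes of radical chains -/

theorem rconj_equivalence (p : ℕ) (N : Subgroup E) :
    Equivalence (fun σ τ : {σ : Set (Subgroup E) // IsRadical p N σ} =>
      ∃ g ∈ N, τ.1 = conjSub g '' σ.1) :=
  { refl := fun σ => ⟨1, N.one_mem, by
      have : (conjSub (1 : E)) = id := funext conjSub_one
      rw [this, Set.image_id]⟩
    symm := by
      rintro σ τ ⟨g, hgN, hg⟩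
      refine ⟨g⁻¹, N.inv_mem hgN, ?_⟩
      rw [hg, ← Set.image_comp]
      have : conjSub g⁻¹ ∘ conjSub g = id := funext fun P => by
        rw [Function.comp_apply, ← conjSub_mul, inv_mul_cancel, conjSub_one, id]
      rw [this, Set.image_id]
    trans := by
      rintro σ τ υ ⟨g, hgN, hg⟩ ⟨h, hhN, hh⟩
      refine ⟨h * g, N.mul_mem hhN hgN, ?_⟩
      rw [hh, hg, ← Set.image_comp]
      congr 1
      exact (funext fun P => conjSub_mul h g P).symm }

/-- Conjugacy of radical chains under `N`. -/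
def rchainSetoid (p : ℕ) (N : Subgroup E) : Setoid {σ : Set (Subgroup E) // IsRadical p N σ} where
  r σ τ := ∃ g ∈ N, τ.1 = conjSub g '' σ.1
  iseqv := rconj_equivalence p N

/-- The alternating sum `∑_σ (-1)^|σ| f(E_σ)` over representatives `σ` of the `N`-conjugacy classes
of radical `p`-chains of `N` (with `P_0 = 1` removed); `|σ|` is the number of the other members, and
`E_σ` is the stabiliser of `σ` in `E`. -/
def rSum (p : ℕ) (N : Subgroup E) (f : Subgroup E → ℤ) : ℤ :=
  ∑ᶠ c : Quotient (rchainSetoid p N), (-1) ^ c.out.1.ncard * f (chainStabilizer c.out.1)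

theorem card_mul_rSum [Finite E] [N.Normal] (f : Subgroup E → ℤ)
    (hf : ∀ g ∈ N, ∀ (σ : Set (Subgroup E)),
      f (conjSub g (chainStabilizer σ)) = f (chainStabilizer σ))
    [Fintype {σ : Set (Subgroup E) // IsRadical p N σ}] :
    (Nat.card N : ℤ) * rSum p N f =
      ∑ σ : {σ : Set (Subgroup E) // IsRadical p N σ},
        (-1) ^ σ.1.ncard * ((Nat.card (chainStabilizer σ.1 ⊓ N : Subgroup E) : ℤ) *
          f (chainStabilizer σ.1)) := by
  let _ : MulAction N {σ : Set (Subgroup E) // IsRadical p N σ} :=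
    { smul := fun g σ => ⟨conjSub (g : E) '' σ.1, σ.2.conj (g : E)⟩
      one_smul := fun σ => by
        apply Subtype.ext
        change conjSub (1 : E) '' σ.1 = σ.1
        have : (conjSub (1 : E)) = id := funext conjSub_one
        rw [this, Set.image_id]
      mul_smul := fun g h σ => by
        apply Subtype.ext
        change conjSub ((g : E) * (h : E)) '' σ.1 = conjSub (g : E) '' (conjSub (h : E) '' σ.1)
        rw [← Set.image_comp]
        congr 1
        exact funext fun P => conjSub_mul (g : E) (h : E) P }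
  have hsm : ∀ (g : N) (σ : {σ : Set (Subgroup E) // IsRadical p N σ}),
      (g • σ).1 = conjSub (g : E) '' σ.1 := fun _ _ => rfl
  have h := orbit_sum (G := N) (rchainSetoid p N) (by
    intro σ τ
    change (∃ g ∈ N, τ.1 = conjSub g '' σ.1) ↔ _
    constructor
    · rintro ⟨g, hgN, hg⟩
      exact ⟨⟨g, hgN⟩, Subtype.ext (by rw [hsm, hg])⟩
    · rintro ⟨g, hg⟩
      exact ⟨g, g.2, by rw [← hg, hsm]⟩)
    (fun σ => (-1) ^ σ.1.ncard * f (chainStabilizer σ.1)) (by
      rintro σ τ ⟨g, hgN, hg⟩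
      rw [hg, ncard_conj, chainStabilizer_conj, hf g hgN σ.1])
  unfold rSum
  rw [h]
  refine Finset.sum_congr rfl fun σ _ => ?_
  have hst : Nat.card (MulAction.stabilizer N σ) =
      Nat.card (chainStabilizer σ.1 ⊓ N : Subgroup E) := by
    have hiff : ∀ g : N, g ∈ MulAction.stabilizer N σ ↔ (g : E) ∈ chainStabilizer σ.1 := by
      intro g
      rw [MulAction.mem_stabilizer_iff, Subtype.ext_iff, hsm, mem_chainStabilizer]
      constructor
      · intro h3 P hP
        have hgP : conjSub (g : E) P ∈ σ.1 := by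
          rw [← h3]
          exact ⟨P, hP, rfl⟩
        have hcard : Nat.card (conjSub (g : E) P) = Nat.card P :=
          Nat.card_congr
            (Subgroup.equivMapOfInjective _ _ (MulAut.conj (g : E)).injective).toEquiv.symm
        rcases σ.2.chain.chain.chain.total hgP hP with h4 | h4
        · exact Subgroup.eq_of_le_of_card_ge h4 hcard.ge
        · exact (Subgroup.eq_of_le_of_card_ge h4 hcard.le).symm
      · intro h3
        ext P
        constructor
        · rintro ⟨Q, hQ, rfl⟩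
          rw [h3 Q hQ]
          exact hQ
        · intro hP
          exact ⟨P, hP, h3 P hP⟩
    refine Nat.card_congr
      { toFun := fun g => ⟨(g.1 : E), (hiff g.1).1 g.2, g.1.2⟩
        invFun := fun g => ⟨⟨g.1, g.2.2⟩, (hiff _).2 g.2.1⟩
        left_inv := fun g => rfl
        right_inv := fun g => rfl }
  rw [hst]
  ring

/-- **Radical chains and all chains give the same alternating sums.** -/
theorem rSum_eq [Fact p.Prime] [Finite E] [N.Normal] (f : Subgroup E → ℤ)
    (hf : ∀ g ∈ N, ∀ M : Subgroup E, f (conjSub g M) = f M) : rSum p N f = nSum p N f := by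
  have : Fintype {σ : Set (Subgroup E) // IsRadical p N σ} := Fintype.ofFinite _
  have : Fintype {σ : Set (Subgroup E) // IsNChain p N σ} := Fintype.ofFinite _
  have h1 := card_mul_rSum (p := p) (N := N) f (fun g hg σ => hf g hg _)
  have h2 := card_mul_nSum (p := p) (N := N) f (fun g hg σ => hf g hg _)
  have h3 := sum_radical (p := p) (N := N)
    (fun M => (Nat.card (M ⊓ N : Subgroup E) : ℤ) * f M)
  rw [← h1, ← h2] at h3
  have h4 : (Nat.card N : ℤ) ≠ 0 := by exact_mod_cast Nat.card_pos.ne'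
  exact (mul_left_cancel₀ h4 h3).symm

end Pool.Agent.V1140.DI
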