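import Pool.Agent.V1140.DI.Radical

/-!
# Invariance under conjugation, and the sums over radical chains
-/

set_option autoImplicit false

open scoped Classical BigOperators

set_option linter.unusedSectionVars false

noncomputable section

namespace Pool.Agent.V1140.DI

open Pool.Agent.Y63.KR Pool.Agent.Y63.AWC Pool.Agent.V1140.DC

variable {p : ℕ} {E : Type} [Group E] {N : Subgroup E}

/-- conjugation by `x⁻¹` -/
def ex {x : E} (hx : x ∈ N) (M : Subgroup E) :
    (conjSub x M ⊓ N : Subgroup E) ≃* (M ⊓ N : Subgroup E) where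
  toFun z := ⟨x⁻¹ * z * x, mem_conjSub.1 z.2.1, N.mul_mem (N.mul_mem (N.inv_mem hx) z.2.2) hx⟩
  invFun z := ⟨x * z * x⁻¹, conj_mem_conjSub z.2.1,
    N.mul_mem (N.mul_mem hx z.2.2) (N.inv_mem hx)⟩
  left_inv z := Subtype.ext (by simp [mul_assoc])
  right_inv z := Subtype.ext (by simp [mul_assoc])
  map_mul' g h := Subtype.ext (by simp [mul_assoc])

lemma irr_ex {x : E} (hx : x ∈ N) (M : Subgroup E) (ψ : (M ⊓ N : Subgroup E) → ℂ) :
    IsIrreducibleCharacter ψ ↔ IsIrreducibleCharacter (fun g => ψ (ex hx M g)) := by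
  constructor
  · intro h
    exact irr_comp (ex hx M) h
  · intro h
    have h1 := irr_comp (ex hx M).symm h
    have e1 : (fun g => ψ (ex hx M ((ex hx M).symm g))) = ψ := by
      funext g
      rw [MulEquiv.apply_symm_apply]
    rw [e1] at h1
    exact h1

lemma card_ex {x : E} (hx : x ∈ N) (M : Subgroup E)
    (T : ∀ M : Subgroup E, ((M ⊓ N : Subgroup E) → ℂ) → Prop)
    (hT : ∀ ψ : (M ⊓ N : Subgroup E) → ℂ, T M ψ ↔ T (conjSub x M) (fun g => ψ (ex hx M g))) :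
    Nat.card {ψ : (conjSub x M ⊓ N : Subgroup E) → ℂ // IsIrreducibleCharacter ψ ∧
      T (conjSub x M) ψ} =
    Nat.card {ψ : (M ⊓ N : Subgroup E) → ℂ // IsIrreducibleCharacter ψ ∧ T M ψ} := by
  symm
  refine Nat.card_congr (Equiv.subtypeEquiv
    (Equiv.arrowCongr (ex hx M).symm.toEquiv (Equiv.refl ℂ)) fun ψ => ?_)
  have e1 : (Equiv.arrowCongr (ex hx M).symm.toEquiv (Equiv.refl ℂ)) ψ =
      fun g => ψ (ex hx M g) := rfl
  rw [e1, ← irr_ex, ← hT]

lemma rat_ex {x : E} (hx : x ∈ N) (M : Subgroup E) (a : ℕ) (ψ : (M ⊓ N : Subgroup E) → ℂ) :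
    IsRationalChar p a ψ ↔ IsRationalChar p a (fun g => ψ (ex hx M g)) := by
  have hc : Nat.card (conjSub x M ⊓ N : Subgroup E) = Nat.card (M ⊓ N : Subgroup E) :=
    Nat.card_congr (ex hx M).toEquiv
  unfold IsRationalChar
  rw [hc]
  refine forall_congr' fun s => forall_congr' fun _ => forall_congr' fun _ =>
    forall_congr' fun _ => ?_
  constructor
  · intro h g
    change ψ (ex hx M (g ^ s)) = ψ (ex hx M g)
    rw [map_pow]
    exact h _
  · intro h g
    have h1 : ψ (ex hx M ((ex hx M).symm g ^ s)) = ψ (ex hx M ((ex hx M).symm g)) :=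
      h ((ex hx M).symm g)
    rw [map_pow, MulEquiv.apply_symm_apply] at h1
    exact h1

lemma inv_ex [N.Normal] {x : E} (hx : x ∈ N) (M : Subgroup E) (s : ℕ) (y : E)
    (ψ : (M ⊓ N : Subgroup E) → ℂ) :
    InvBy s N M ψ y ↔ InvBy s N (conjSub x M) (fun g => ψ (ex hx M g)) y := by
  have hyx : y * x⁻¹ * y⁻¹ ∈ N := ‹N.Normal›.conj_mem _ (N.inv_mem hx) y
  constructor
  · rintro ⟨e, he, he1, he2⟩
    refine ⟨x * e * x⁻¹, conj_mem_conjSub he, ?_, fun g g' hg => he2 _ _ ?_⟩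
    · have h1 := N.mul_mem (N.mul_mem hx he1) hyx
      have h2 : x * (e * y⁻¹) * (y * x⁻¹ * y⁻¹) = x * e * x⁻¹ * y⁻¹ := by group
      rwa [h2] at h1
    · change x⁻¹ * (g' : E) * x = e * (x⁻¹ * (g : E) * x) ^ s * e⁻¹
      have h1 : (x⁻¹ * (g : E) * x) ^ s = x⁻¹ * (g : E) ^ s * x := by
        have h2 := conj_pow (i := s) (a := x⁻¹) (b := (g : E))
        rwa [inv_inv] at h2
      rw [h1, hg]
      group
  · rintro ⟨e, he, he1, he2⟩
    refine ⟨x⁻¹ * e * x, mem_conjSub.1 he, ?_, fun g g' hg => ?_⟩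
    · have h1 := N.mul_mem (N.mul_mem (N.inv_mem hx) he1) (N.inv_mem hyx)
      have h2 : x⁻¹ * (e * y⁻¹) * (y * x⁻¹ * y⁻¹)⁻¹ = x⁻¹ * e * x * y⁻¹ := by group
      rwa [h2] at h1
    · have h1 : ψ (ex hx M ((ex hx M).symm g')) = ψ (ex hx M ((ex hx M).symm g)) :=
        he2 ((ex hx M).symm g) ((ex hx M).symm g') (by
        change x * (g' : E) * x⁻¹ = e * (x * (g : E) * x⁻¹) ^ s * e⁻¹
        rw [conj_pow, hg]
        group)
      rw [MulEquiv.apply_symm_apply, MulEquiv.apply_symm_apply] at h1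
      exact h1

/-- the properties which are invariant under conjugation by `N` -/
def Inv (N : Subgroup E) (R : ∀ M : Subgroup E, ((M ⊓ N : Subgroup E) → ℂ) → Prop) : Prop :=
  ∀ (x : E) (hx : x ∈ N) (M : Subgroup E) (ψ : (M ⊓ N : Subgroup E) → ℂ),
    R M ψ ↔ R (conjSub x M) (fun g => ψ (ex hx M g))

lemma inv_all : Inv N (RAll N) := fun _ _ _ _ => Iff.rfl

lemma inv_rat (a : ℕ) : Inv N (RRat p a N) := fun _ hx M ψ => rat_ex hx M a ψ

lemma inv_lev (a : ℕ) : Inv N (RLev p a N) := fun _ hx M ψ =>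
  and_congr (rat_ex hx M a ψ) (not_congr (rat_ex hx M (a - 1) ψ))

theorem rSum_numInv [Fact p.Prime] [Finite E] [N.Normal] (s : ℕ) (y : E) :
    rSum p N (fun M => (numInv s N y M : ℤ)) = nSum p N (fun M => (numInv s N y M : ℤ)) := by
  refine rSum_eq _ fun x hx M => ?_
  have h := card_ex hx M (fun M ψ => InvBy s N M ψ y) (fun ψ => inv_ex hx M s y ψ)
  exact congrArg (Nat.cast (R := ℤ)) h

theorem rSum_cI [Fact p.Prime] [Finite E] [N.Normal]
    {R : ∀ M : Subgroup E, ((M ⊓ N : Subgroup E) → ℂ) → Prop} (hR : Inv N R) (y : E) :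
    rSum p N (fun M => (cI N R y M : ℤ)) = nSum p N (fun M => (cI N R y M : ℤ)) := by
  refine rSum_eq _ fun x hx M => ?_
  have h := card_ex hx M (fun M ψ => R M ψ ∧ InvBy 1 N M ψ y)
    (fun ψ => and_congr (hR x hx M ψ) (inv_ex hx M 1 y ψ))
  exact congrArg (Nat.cast (R := ℤ)) h

theorem rSum_cS [Fact p.Prime] [Finite E] [N.Normal]
    {R : ∀ M : Subgroup E, ((M ⊓ N : Subgroup E) → ℂ) → Prop} (hR : Inv N R) (U : Subgroup E) :
    rSum p N (fun M => (cS N R U M : ℤ)) = nSum p N (fun M => (cS N R U M : ℤ)) := by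
  refine rSum_eq _ fun x hx M => ?_
  have h := card_ex hx M (fun M ψ => R M ψ ∧ ∀ y : E, y ∈ U ↔ InvBy 1 N M ψ y)
    (fun ψ => and_congr (hR x hx M ψ) (forall_congr' fun y => iff_congr Iff.rfl (inv_ex hx M 1 y ψ)))
  exact congrArg (Nat.cast (R := ℤ)) h

end Pool.Agent.V1140.DI
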